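import Pool.Agent.Q247.HN.Lat

/-!
# The vector `p^(-1) v_0` is not in the lattice
-/

set_option autoImplicit false
set_option linter.unusedSectionVars false

namespace Pool.Agent.Q247.HN

open Finset

variable {p : ℕ} [hp : Fact p.Prime] {C : Type*} [NormedField C] [NormedAlgebra ℚ_[p] C]
  [IsUltrametricDist C] {d : ℕ}

theorem card_Ix (n k : ℕ) (i : Fin d ⊕ Fin d) (hn : nn p d k ≤ n) :
    Fintype.card (Ix p d n k i) * p ^ (mm d k + 1) = p ^ (n * (d + d)) := by
  classical
  have hd : 1 ≤ d + d := by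
    have : 0 < Fintype.card (Fin d ⊕ Fin d) := Fintype.card_pos_iff.2 ⟨i⟩
    rw [Fintype.card_sum, Fintype.card_fin] at this
    exact this
  have h1 : Fintype.card {j // j ≠ i} = d + d - 1 := by
    rw [Fintype.card_subtype_compl, Fintype.card_subtype_eq]
    simp
  rw [Fintype.card_prod, Fintype.card_prod, Fintype.card_fun, h1, Fintype.card_fin,
    Fintype.card_fin, Fintype.card_fin, rr]
  have h2 : p ^ (k * p ^ (mm d k + 1)) * p ^ (mm d k + 1) = p ^ nn p d k := by
    rw [← pow_add]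
    rfl
  have h3 : p ^ (n - nn p d k) * p ^ nn p d k = p ^ n := by
    rw [← pow_add, Nat.sub_add_cancel hn]
  calc (p ^ n) ^ (d + d - 1) * (p ^ (n - nn p d k) * p ^ (k * p ^ (mm d k + 1))) * p ^ (mm d k + 1)
      = (p ^ n) ^ (d + d - 1) * (p ^ (n - nn p d k) *
          (p ^ (k * p ^ (mm d k + 1)) * p ^ (mm d k + 1))) := by ring
    _ = (p ^ n) ^ (d + d - 1) * p ^ n := by rw [h2, h3]
    _ = (p ^ n) ^ (d + d) := by rw [← pow_succ, Nat.sub_add_cancel hd]
    _ = p ^ (n * (d + d)) := by rw [← pow_mul]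

theorem geom_half (K : ℕ) : ∑ k ∈ range K, ((1 : ℝ) / 2) ^ (k + 1) = 1 - (1 / 2) ^ K := by
  induction K with
  | zero => simp
  | succ K ih =>
    rw [sum_range_succ, ih, pow_succ]
    ring

theorem card_Iy (n K : ℕ) (hn : nn p d K ≤ n) :
    Fintype.card (Iy p d n K) < p ^ (n * (d + d)) := by
  have h1 : (Fintype.card (Iy p d n K) : ℝ) =
      ∑ k ∈ range K, ((d : ℝ) + d) * ((p : ℝ) ^ (n * (d + d)) / (p : ℝ) ^ (mm d (k + 1) + 1)) := by
    rw [Fintype.card_sigma]
    push_cast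
    rw [← Fin.sum_univ_eq_sum_range (fun k => ((d : ℝ) + d) *
      ((p : ℝ) ^ (n * (d + d)) / (p : ℝ) ^ (mm d (k + 1) + 1))) K]
    refine sum_congr rfl fun k _ => ?_
    rw [Fintype.card_sigma]
    push_cast
    have h2 : ∀ i : Fin d ⊕ Fin d, (Fintype.card (Ix p d n (k + 1) i) : ℝ) =
        (p : ℝ) ^ (n * (d + d)) / (p : ℝ) ^ (mm d (k + 1) + 1) := by
      intro i
      have h3 := card_Ix n (k + 1) i ((nn_mono p d (by have := k.2; omega)).trans hn)
      have h4 : (0 : ℝ) < (p : ℝ) ^ (mm d (k + 1) + 1) := pow_pos (p_pos p) _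
      rw [eq_div_iff h4.ne']
      exact_mod_cast h3
    rw [sum_congr rfl fun i _ => h2 i]
    simp only [sum_const, card_univ, Fintype.card_sum, Fintype.card_fin, nsmul_eq_mul]
    push_cast
    ring
  have hP : (0 : ℝ) < (p : ℝ) ^ (n * (d + d)) := pow_pos (p_pos p) _
  have h2 : (Fintype.card (Iy p d n K) : ℝ) < (p : ℝ) ^ (n * (d + d)) := by
    rw [h1]
    calc ∑ k ∈ range K, ((d : ℝ) + d) * ((p : ℝ) ^ (n * (d + d)) / (p : ℝ) ^ (mm d (k + 1) + 1))
        ≤ ∑ k ∈ range K, (((d : ℝ) + d) * ((p : ℝ) ^ (n * (d + d)) * (1 / 2) ^ (d + d + 1))) *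
            (1 / 2) ^ (k + 1) := by
          apply sum_le_sum
          intro k _
          have h3 : (2 : ℝ) ≤ p := by exact_mod_cast hp.out.two_le
          have h4 : (2 : ℝ) ^ (mm d (k + 1) + 1) ≤ (p : ℝ) ^ (mm d (k + 1) + 1) := by gcongr
          have h5 : (p : ℝ) ^ (n * (d + d)) / (p : ℝ) ^ (mm d (k + 1) + 1) ≤
              (p : ℝ) ^ (n * (d + d)) / 2 ^ (mm d (k + 1) + 1) := by gcongr
          have h6 : (p : ℝ) ^ (n * (d + d)) / 2 ^ (mm d (k + 1) + 1) =
              (p : ℝ) ^ (n * (d + d)) * (1 / 2) ^ (d + d + 1) * (1 / 2) ^ (k + 1) := by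
            rw [mul_assoc, ← pow_add, one_div_pow, div_eq_mul_one_div]
            congr 3
            unfold mm
            ring
          rw [h6] at h5
          calc _ ≤ ((d : ℝ) + d) * ((p : ℝ) ^ (n * (d + d)) * (1 / 2) ^ (d + d + 1) *
                (1 / 2) ^ (k + 1)) := by gcongr
            _ = _ := by ring
      _ = (((d : ℝ) + d) * ((p : ℝ) ^ (n * (d + d)) * (1 / 2) ^ (d + d + 1))) *
            (1 - (1 / 2) ^ K) := by rw [← mul_sum, geom_half]
      _ ≤ (((d : ℝ) + d) * ((p : ℝ) ^ (n * (d + d)) * (1 / 2) ^ (d + d + 1))) * 1 := by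
          gcongr
          have : (0 : ℝ) ≤ (1 / 2) ^ K := by positivity
          linarith
      _ < (p : ℝ) ^ (n * (d + d)) := by
          have h7 : ((d + d : ℕ) : ℝ) < 2 ^ (d + d) := by exact_mod_cast Nat.lt_two_pow_self
          push_cast at h7
          have h8 : ((d : ℝ) + d) * (1 / 2) ^ (d + d + 1) < 1 := by
            rw [pow_succ, one_div_pow]
            have h9 : (0 : ℝ) < 2 ^ (d + d) := by positivity
            have h10 : ((d : ℝ) + d) * (1 / 2 ^ (d + d)) < 1 := by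
              rw [mul_one_div, div_lt_one h9]
              exact h7
            have h11 : 0 ≤ ((d : ℝ) + d) * (1 / 2 ^ (d + d)) := by positivity
            calc ((d : ℝ) + d) * (1 / 2 ^ (d + d) * (1 / 2)) =
                (((d : ℝ) + d) * (1 / 2 ^ (d + d))) * (1 / 2) := by ring
              _ < 1 := by linarith
          calc _ = (p : ℝ) ^ (n * (d + d)) * (((d : ℝ) + d) * (1 / 2) ^ (d + d + 1)) := by ring
            _ < (p : ℝ) ^ (n * (d + d)) * 1 := by
                apply mul_lt_mul_of_pos_left h8 hP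
            _ = _ := mul_one _
  exact_mod_cast h2

/-- **The main claim.** -/
theorem not_lat {χ : AddChar ℚ_[p] C} (h : Good χ) : ¬ Lat χ ((p : C)⁻¹ • v0 p C d) := by
  classical
  intro hL
  obtain ⟨K, n₀, hK⟩ := hL.inL h
  set n := max n₀ (nn p d K) with hn
  have h1 : ∀ q, InL χ n K ((p : C)⁻¹ • e (d := d) χ n q) := by
    intro q
    have := hK K le_rfl n (le_max_left _ _) (yq n q) (fun j => norm_nat_div_le n _)
    rw [map_smul] at this
    exact this
  have : FiniteDimensional C (U χ d n K) :=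
    FiniteDimensional.span_of_finite C (Set.finite_range _)
  -- some `e_q` is not in `U`
  have h2 : ∃ q₀, e χ n q₀ ∉ U χ d n K := by
    by_contra hcon
    push Not at hcon
    have h3 : Submodule.span C (Set.range (e (d := d) χ n)) ≤ U χ d n K := by
      rw [Submodule.span_le]
      rintro _ ⟨q, rfl⟩
      exact hcon q
    have h4 := Submodule.finrank_mono h3
    rw [finrank_span_eq_card (e_indep h n)] at h4
    have h5 : Module.finrank C (U χ d n K) ≤ Fintype.card (Iy p d n K) :=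
      finrank_range_le_card (gen (d := d) χ n K)
    have h6 : Fintype.card (Iy p d n K) < p ^ (n * (d + d)) := card_Iy n K (le_max_right _ _)
    have h7 : Fintype.card (Fin d ⊕ Fin d → Fin (p ^ n)) = p ^ (n * (d + d)) := by
      rw [Fintype.card_fun, Fintype.card_fin, Fintype.card_sum, Fintype.card_fin, ← pow_mul]
    omega
  obtain ⟨q₀, hq₀⟩ := h2
  obtain ⟨φ, hφ0, hφU⟩ := Submodule.exists_le_ker_of_notMem hq₀
  obtain ⟨q₁, hq₁⟩ := Finite.exists_max (fun q => ‖φ (e χ n q)‖)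
  have hpos : 0 < ‖φ (e χ n q₁)‖ := lt_of_lt_of_le (norm_pos_iff.2 hφ0) (hq₁ q₀)
  obtain ⟨c, hc, hu⟩ := h1 q₁
  have h3 : φ ((p : C)⁻¹ • e χ n q₁ - ∑ q, c q • e χ n q) = 0 := hφU hu
  rw [map_sub, map_smul, map_sum, sub_eq_zero] at h3
  simp only [map_smul, smul_eq_mul] at h3
  have h4 : ‖(p : C)⁻¹ * φ (e χ n q₁)‖ ≤ ‖φ (e χ n q₁)‖ := by
    rw [h3]
    apply IsUltrametricDist.norm_sum_le_of_forall_le_of_nonneg (norm_nonneg _)
    intro q _
    rw [norm_mul]
    calc _ ≤ 1 * ‖φ (e χ n q₁)‖ := by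
          gcongr
          · exact hc q
          · exact hq₁ q
      _ = _ := one_mul _
  rw [norm_mul, norm_inv, norm_p p C, inv_inv] at h4
  have h5 := one_lt_p p
  nlinarith

end Pool.Agent.Q247.HN
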