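import Pool.Agent.Q247.HN.Op

/-!
# Irreducibility: a stable subspace with a nonzero Schwartz function contains all of them
-/

set_option autoImplicit false
set_option linter.unusedSectionVars false

namespace Pool.Agent.Q247.HN

open Finset Topology

variable {p : ℕ} [hp : Fact p.Prime] {C : Type*} [NormedField C] [NormedAlgebra ℚ_[p] C]
  [IsUltrametricDist C] {d : ℕ}

/-- The kernel of `χ` is `ℤ_p`. -/
theorem Good.ker {χ : AddChar ℚ_[p] C} (h : Good χ) {x : ℚ_[p]} (hx : χ x = 1) : ‖x‖ ≤ 1 := by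
  obtain ⟨n, hn⟩ := exists_pow_le x
  obtain ⟨q, hq, hq'⟩ := red1 n x hn
  have h1 : χ x = om χ n ^ q := by
    rw [om_pow]
    have : x = (q : ℚ_[p]) / (p : ℚ_[p]) ^ n + (x - (q : ℚ_[p]) / (p : ℚ_[p]) ^ n) := by ring
    conv_lhs => rw [this]
    rw [AddChar.map_add_eq_mul, h.triv _ hq', mul_one]
  rw [hx] at h1
  have h2 := (om_prim h n).dvd_of_pow_eq_one q h1.symm
  have h3 : q = 0 := Nat.eq_zero_of_dvd_of_lt h2 hq
  rw [h3] at hq'
  simpa using hq'

/-- The value `1` if `P` holds and `0` otherwise. -/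
noncomputable def ind (C : Type*) [NormedField C] (P : Prop) : C :=
  open Classical in if P then 1 else 0

theorem ind_pos {P : Prop} (h : P) : ind C P = 1 := by
  rw [ind, if_pos h]

theorem ind_neg {P : Prop} (h : ¬ P) : ind C P = 0 := by
  rw [ind, if_neg h]

/-- The one-variable delta function. -/
theorem delta {χ : AddChar ℚ_[p] C} (h : Good χ) (n k : ℕ) (t : ℚ_[p]) (ht : ‖t‖ ≤ (p : ℝ) ^ n) :
    ((p : C) ^ (n + k))⁻¹ * ∑ j ∈ range (p ^ (n + k)), χ ((j : ℚ_[p]) / (p : ℚ_[p]) ^ k * t) =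
      ind C (‖t‖ ≤ ((p : ℝ) ^ k)⁻¹) := by
  have hpC : (p : C) ≠ 0 := by
    have h0 := norm_p p C
    intro h1
    rw [h1, norm_zero] at h0
    exact inv_ne_zero (p_pos p).ne' h0.symm
  have hpk : (0 : ℝ) < (p : ℝ) ^ k := pow_pos (p_pos p) _
  have hpn : (0 : ℝ) < (p : ℝ) ^ n := pow_pos (p_pos p) _
  set ζ := χ (t / (p : ℚ_[p]) ^ k) with hζ
  have h1 : ∀ j : ℕ, χ ((j : ℚ_[p]) / (p : ℚ_[p]) ^ k * t) = ζ ^ j := by
    intro j
    rw [hζ, ← AddChar.map_nsmul_eq_pow, nsmul_eq_mul]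
    congr 1
    ring
  rw [sum_congr rfl fun j _ => h1 j]
  have h2 : ζ ^ (p ^ (n + k)) = 1 := by
    rw [hζ, ← AddChar.map_nsmul_eq_pow, nsmul_eq_mul]
    apply h.triv
    have h3 : ((p ^ (n + k) : ℕ) : ℚ_[p]) * (t / (p : ℚ_[p]) ^ k) = t * (p : ℚ_[p]) ^ n := by
      have := pow_ne_zero k (p_ne (p := p))
      push_cast
      field_simp
      ring
    rw [h3, norm_mul, norm_pow_p, mul_inv_le_iff₀ hpn, one_mul]
    exact ht
  by_cases hk : ‖t‖ ≤ ((p : ℝ) ^ k)⁻¹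
  · rw [ind_pos hk]
    have h3 : ζ = 1 := by
      apply h.triv
      rw [norm_div_pow, ← le_div_iff₀ hpk, one_div]
      exact hk
    rw [h3]
    simp only [one_pow, sum_const, card_range, nsmul_eq_mul, mul_one]
    push_cast
    exact inv_mul_cancel₀ (pow_ne_zero _ hpC)
  · rw [ind_neg hk]
    have h3 : ζ ≠ 1 := by
      intro h4
      apply hk
      have h5 := h.ker h4
      rw [norm_div_pow, ← le_div_iff₀ hpk, one_div] at h5
      exact h5
    have h4 := geom_sum_mul ζ (p ^ (n + k))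
    rw [h2, sub_self] at h4
    rw [(mul_eq_zero.1 h4).resolve_right (sub_ne_zero.2 h3), mul_zero]

/-- Stable subspaces. -/
def Stable (χ : AddChar ℚ_[p] C) (M : Submodule C ((Fin d → ℚ_[p]) → C)) : Prop :=
  ∀ y f, f ∈ M → E χ y f ∈ M

theorem stable_cut {χ : AddChar ℚ_[p] C} (h : Good χ) {M : Submodule C ((Fin d → ℚ_[p]) → C)}
    (hM : Stable χ M) {f : (Fin d → ℚ_[p]) → C} (hf : f ∈ M) (x₀ : Fin d → ℚ_[p]) (n k : ℕ)
    (hn : ∀ x, f x ≠ 0 → ∀ i, ‖x i - x₀ i‖ ≤ (p : ℝ) ^ n) (s : Finset (Fin d)) :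
    (fun x => ind C (∀ i ∈ s, ‖x i - x₀ i‖ ≤ ((p : ℝ) ^ k)⁻¹) * f x) ∈ M := by
  classical
  induction s using Finset.induction_on with
  | empty =>
    have h1 : (fun x => ind C (∀ i ∈ (∅ : Finset (Fin d)), ‖x i - x₀ i‖ ≤ ((p : ℝ) ^ k)⁻¹) * f x)
        = f := by
      funext x
      rw [ind_pos (by simp), one_mul]
    rw [h1]
    exact hf
  | insert a s ha ih =>
    set g : (Fin d → ℚ_[p]) → C :=
      fun x => ind C (∀ i ∈ s, ‖x i - x₀ i‖ ≤ ((p : ℝ) ^ k)⁻¹) * f x with hg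
    have hgx' : ∀ x, g x = ind C (∀ i ∈ s, ‖x i - x₀ i‖ ≤ ((p : ℝ) ^ k)⁻¹) * f x := fun _ => rfl
    have h1 : ((p : C) ^ (n + k))⁻¹ • ∑ j ∈ range (p ^ (n + k)),
        χ (-((j : ℚ_[p]) / (p : ℚ_[p]) ^ k * x₀ a)) •
          E χ (Pi.single (Sum.inr a) ((j : ℚ_[p]) / (p : ℚ_[p]) ^ k)) g ∈ M := by
      apply Submodule.smul_mem
      apply Submodule.sum_mem
      intro j _
      apply Submodule.smul_mem
      exact hM _ _ ih
    have heq : (fun x => ind C (∀ i ∈ insert a s, ‖x i - x₀ i‖ ≤ ((p : ℝ) ^ k)⁻¹) * f x) =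
        ((p : C) ^ (n + k))⁻¹ • ∑ j ∈ range (p ^ (n + k)),
        χ (-((j : ℚ_[p]) / (p : ℚ_[p]) ^ k * x₀ a)) •
          E χ (Pi.single (Sum.inr a) ((j : ℚ_[p]) / (p : ℚ_[p]) ^ k)) g := by
      funext x
      rw [Pi.smul_apply, Finset.sum_apply, smul_eq_mul]
      have h2 : ∀ j : ℕ, (χ (-((j : ℚ_[p]) / (p : ℚ_[p]) ^ k * x₀ a)) •
          E χ (Pi.single (Sum.inr a) ((j : ℚ_[p]) / (p : ℚ_[p]) ^ k)) g) x =
          χ ((j : ℚ_[p]) / (p : ℚ_[p]) ^ k * (x a - x₀ a)) * g x := by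
        intro j
        rw [Pi.smul_apply, smul_eq_mul, E_apply]
        have h3 : ∑ i, (Pi.single (Sum.inr a) ((j : ℚ_[p]) / (p : ℚ_[p]) ^ k) :
            Fin d ⊕ Fin d → ℚ_[p]) (Sum.inr i) * x i = (j : ℚ_[p]) / (p : ℚ_[p]) ^ k * x a := by
          rw [sum_eq_single a]
          · rw [Pi.single_eq_same]
          · intro b _ hb
            rw [Pi.single_eq_of_ne (by simpa using hb), zero_mul]
          · simp
        have h4 : (fun i => x i + (Pi.single (Sum.inr a) ((j : ℚ_[p]) / (p : ℚ_[p]) ^ k) :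
            Fin d ⊕ Fin d → ℚ_[p]) (Sum.inl i)) = x := by
          funext i
          rw [Pi.single_eq_of_ne (by simp), add_zero]
        rw [h3, h4, ← mul_assoc, ← AddChar.map_add_eq_mul]
        congr 2
        ring
      rw [sum_congr rfl fun j _ => h2 j, ← sum_mul, ← mul_assoc]
      by_cases hgx : g x = 0
      · rw [hgx, mul_zero]
        by_cases hx : ∀ i ∈ insert a s, ‖x i - x₀ i‖ ≤ ((p : ℝ) ^ k)⁻¹
        · have h5 : ∀ i ∈ s, ‖x i - x₀ i‖ ≤ ((p : ℝ) ^ k)⁻¹ :=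
            fun i hi => hx i (mem_insert_of_mem hi)
          rw [ind_pos hx, one_mul]
          rwa [hgx', ind_pos h5, one_mul] at hgx
        · rw [ind_neg hx, zero_mul]
      · have h5 : ∀ i ∈ s, ‖x i - x₀ i‖ ≤ ((p : ℝ) ^ k)⁻¹ := by
          by_contra hcon
          exact hgx (by rw [hgx', ind_neg hcon, zero_mul])
        have h6 : g x = f x := by rw [hgx', ind_pos h5, one_mul]
        have hfx : f x ≠ 0 := by rwa [← h6]
        rw [delta h n k _ (hn x hfx a), h6]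
        congr 1
        by_cases hx : ‖x a - x₀ a‖ ≤ ((p : ℝ) ^ k)⁻¹
        · rw [ind_pos hx, ind_pos]
          intro i hi
          rcases mem_insert.1 hi with rfl | hi
          · exact hx
          · exact h5 i hi
        · rw [ind_neg hx, ind_neg]
          intro hh
          exact hx (hh a (mem_insert_self _ _))
    rw [heq]
    exact h1

/-- The characteristic function of the ball of radius `p^(-k)` around `x₀`. -/
noncomputable def bal (C : Type*) [NormedField C] (x₀ : Fin d → ℚ_[p]) (k : ℕ) :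
    (Fin d → ℚ_[p]) → C :=
  fun x => ind C (∀ i, ‖x i - x₀ i‖ ≤ ((p : ℝ) ^ k)⁻¹)

theorem stable_bal {χ : AddChar ℚ_[p] C} (h : Good χ) {M : Submodule C ((Fin d → ℚ_[p]) → C)}
    (hM : Stable χ M) {f : (Fin d → ℚ_[p]) → C} (hf : f ∈ M) (x₀ : Fin d → ℚ_[p]) (hx₀ : f x₀ ≠ 0)
    (n k : ℕ) (hn : ∀ x, f x ≠ 0 → ∀ i, ‖x i - x₀ i‖ ≤ (p : ℝ) ^ n)
    (hk : ∀ x, (∀ i, ‖x i - x₀ i‖ ≤ ((p : ℝ) ^ k)⁻¹) → f x = f x₀) (y : Fin d → ℚ_[p]) :
    bal C y k ∈ M := by
  have h1 := stable_cut h hM hf x₀ n k hn univ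
  have h2 : bal C x₀ k ∈ M := by
    have h3 := Submodule.smul_mem M (f x₀)⁻¹ h1
    have h4 : bal C x₀ k = (f x₀)⁻¹ •
        fun x => ind C (∀ i ∈ univ, ‖x i - x₀ i‖ ≤ ((p : ℝ) ^ k)⁻¹) * f x := by
      funext x
      rw [bal, Pi.smul_apply, smul_eq_mul]
      by_cases hx : ∀ i, ‖x i - x₀ i‖ ≤ ((p : ℝ) ^ k)⁻¹
      · rw [ind_pos hx, ind_pos (fun i _ => hx i), one_mul, hk x hx, inv_mul_cancel₀ hx₀]
      · rw [ind_neg hx, ind_neg (fun hh => hx fun i => hh i (mem_univ i)), zero_mul, mul_zero]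
    rw [h4]
    exact h3
  have h3 := hM (Sum.elim (fun i => x₀ i - y i) (fun _ => 0)) _ h2
  have h4 : bal C y k = E χ (Sum.elim (fun i => x₀ i - y i) (fun _ => 0)) (bal C x₀ k) := by
    funext x
    rw [E_apply, bal, bal]
    simp only [Sum.elim_inr, zero_mul, sum_const_zero, AddChar.map_zero_eq_one, one_mul,
      Sum.elim_inl]
    have h5 : ∀ i, x i + (x₀ i - y i) - x₀ i = x i - y i := fun i => by ring
    simp only [h5]
  rw [h4]
  exact h3

/-- The space of locally constant functions with compact support. -/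
def Sch (p : ℕ) [Fact p.Prime] (C : Type*) [NormedField C] (d : ℕ) :
    Submodule C ((Fin d → ℚ_[p]) → C) where
  carrier := {f | IsLocallyConstant f ∧ HasCompactSupport f}
  zero_mem' := ⟨IsLocallyConstant.const 0, HasCompactSupport.zero⟩
  add_mem' := fun hf hg => ⟨hf.1.add hg.1, hf.2.add hg.2⟩
  smul_mem' := fun c f hf => by
    refine ⟨?_, ?_⟩
    · exact hf.1.comp (fun z => c • z)
    · exact hf.2.comp_left (g := fun z => c • z) (smul_zero c)

theorem sch_unif {f : (Fin d → ℚ_[p]) → C} (hf : f ∈ Sch p C d) :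
    ∃ N : ℕ, ∀ n ≥ N, (∀ x z : Fin d → ℚ_[p], (∀ i, ‖z i‖ ≤ ((p : ℝ) ^ n)⁻¹) → f (x + z) = f x) ∧
      ∀ x, f x ≠ 0 → ∀ i, ‖x i‖ ≤ (p : ℝ) ^ n := by
  obtain ⟨h1, h2⟩ := hf
  obtain ⟨δ, hδ, hcov⟩ := lebesgue_number_lemma_of_metric (s := tsupport f)
    (c := fun v : C => f ⁻¹' {v}) h2 (fun v => h1.isOpen_fiber v) (fun x _ => by simp)
  obtain ⟨R, hR⟩ := h2.isBounded.exists_norm_le
  obtain ⟨N₁, hN₁⟩ := pow_unbounded_of_one_lt R (one_lt_p p)
  obtain ⟨N₂, hN₂⟩ := pow_unbounded_of_one_lt (δ⁻¹) (one_lt_p p)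
  refine ⟨max N₁ N₂, fun n hn => ⟨fun x z hz => ?_, fun x hx i => ?_⟩⟩
  · have hpn : (0 : ℝ) < (p : ℝ) ^ n := pow_pos (p_pos p) _
    have hzn : ‖z‖ < δ := by
      have h3 : ‖z‖ ≤ ((p : ℝ) ^ n)⁻¹ := (pi_norm_le_iff_of_nonneg (inv_nonneg.2 hpn.le)).2 hz
      refine h3.trans_lt ?_
      have h4 : δ⁻¹ < (p : ℝ) ^ n :=
        hN₂.trans_le (pow_le_pow_right₀ (one_lt_p p).le ((le_max_right _ _).trans hn))
      exact inv_lt_of_inv_lt₀ hδ h4
    by_cases hx : x ∈ tsupport f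
    · obtain ⟨v, hv⟩ := hcov x hx
      have e1 : f x = v := hv (Metric.mem_ball_self hδ)
      have e2 : f (x + z) = v := hv (by
        rw [Metric.mem_ball, dist_eq_norm, add_sub_cancel_left]
        exact hzn)
      rw [e1, e2]
    · by_cases hxz : x + z ∈ tsupport f
      · obtain ⟨v, hv⟩ := hcov _ hxz
        have e1 : f (x + z) = v := hv (Metric.mem_ball_self hδ)
        have e2 : f x = v := hv (by
          rw [Metric.mem_ball, dist_eq_norm]
          have : x - (x + z) = -z := by abel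
          rw [this, norm_neg]
          exact hzn)
        rw [e1, e2]
      · rw [image_eq_zero_of_notMem_tsupport hx, image_eq_zero_of_notMem_tsupport hxz]
  · have h3 := hR x (subset_tsupport f hx)
    exact (norm_le_pi_norm x i).trans (h3.trans (hN₁.le.trans
      (pow_le_pow_right₀ (one_lt_p p).le ((le_max_left _ _).trans hn))))

/-- **Irreducibility.** -/
theorem irr {χ : AddChar ℚ_[p] C} (h : Good χ) {M : Submodule C ((Fin d → ℚ_[p]) → C)}
    (hM : Stable χ M) {f : (Fin d → ℚ_[p]) → C} (hf : f ∈ M) (hfS : f ∈ Sch p C d) (hf0 : f ≠ 0) :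
    Sch p C d ≤ M := by
  classical
  intro g hg
  obtain ⟨N₁, hN₁⟩ := sch_unif hfS
  obtain ⟨N₂, hN₂⟩ := sch_unif hg
  set n := max N₁ N₂ with hn
  obtain ⟨f1, f2⟩ := hN₁ n (le_max_left _ _)
  obtain ⟨g1, g2⟩ := hN₂ n (le_max_right _ _)
  obtain ⟨x₀, hx₀⟩ : ∃ x, f x ≠ 0 := by
    by_contra hcon
    push Not at hcon
    exact hf0 (funext hcon)
  have hbal := stable_bal h hM hf x₀ hx₀ n n
    (fun x hx i => qsub_le (f2 x hx i) (f2 x₀ hx₀ i)) (fun x hx => by
      have := f1 x₀ (x - x₀) hx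
      rwa [add_sub_cancel] at this)
  have hpn : (0 : ℝ) < (p : ℝ) ^ n := pow_pos (p_pos p) _
  have hpne := pow_ne_zero n (p_ne (p := p))
  -- the points
  let Y : (Fin d → Fin (p ^ (n + n))) → (Fin d → ℚ_[p]) := fun q i =>
    ((q i : ℕ) : ℚ_[p]) / (p : ℚ_[p]) ^ n
  have hY : ∀ q i, Y q i = ((q i : ℕ) : ℚ_[p]) / (p : ℚ_[p]) ^ n := fun _ _ => rfl
  have hsum : g = ∑ q, g (Y q) • bal C (Y q) n := by
    funext x
    rw [Finset.sum_apply]
    simp only [Pi.smul_apply, smul_eq_mul]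
    by_cases hx : ∀ i, ‖x i‖ ≤ (p : ℝ) ^ n
    · -- the unique `q`
      have h1 : ∀ i, ∃ q < p ^ (n + n), ‖x i - (q : ℚ_[p]) / (p : ℚ_[p]) ^ n‖ ≤ ((p : ℝ) ^ n)⁻¹ := by
        intro i
        obtain ⟨q, hq, hq'⟩ := red1 (n + n) (x i / (p : ℚ_[p]) ^ n) (by
          rw [norm_div_pow, pow_add]
          gcongr
          exact hx i)
        refine ⟨q, hq, ?_⟩
        have h2 : x i / (p : ℚ_[p]) ^ n - (q : ℚ_[p]) / (p : ℚ_[p]) ^ (n + n) =
            (x i - (q : ℚ_[p]) / (p : ℚ_[p]) ^ n) / (p : ℚ_[p]) ^ n := by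
          rw [pow_add]
          field_simp
        rw [h2, norm_div_pow, ← le_div_iff₀ hpn, one_div] at hq'
        exact hq'
      choose q hq hq' using h1
      set q₀ : Fin d → Fin (p ^ (n + n)) := fun i => ⟨q i, hq i⟩ with hq₀
      rw [sum_eq_single q₀]
      · have h2 : ∀ i, ‖x i - Y q₀ i‖ ≤ ((p : ℝ) ^ n)⁻¹ := hq'
        rw [bal, ind_pos h2, mul_one]
        have := g1 (Y q₀) (x - Y q₀) h2
        rwa [add_sub_cancel] at this
      · intro q' _ hne
        rw [bal, ind_neg, mul_zero]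
        intro hh
        apply hne
        funext i
        apply Fin.ext
        have h3 : ‖(-(((q₀ i : ℕ) : ℚ_[p]) / (p : ℚ_[p]) ^ (n + n)) + ((0 : ℤ) : ℚ_[p])) +
            ((q' i : ℕ) : ℚ_[p]) / (p : ℚ_[p]) ^ (n + n)‖ ≤ 1 := by
          have h4 : (-(((q₀ i : ℕ) : ℚ_[p]) / (p : ℚ_[p]) ^ (n + n)) + ((0 : ℤ) : ℚ_[p])) +
            ((q' i : ℕ) : ℚ_[p]) / (p : ℚ_[p]) ^ (n + n) =
            ((x i - Y q₀ i) - (x i - Y q' i)) / (p : ℚ_[p]) ^ n := by
            rw [hY, hY, pow_add (p : ℚ_[p]) n n]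
            push_cast
            field_simp
            ring
          rw [h4, norm_div_pow, ← le_div_iff₀ hpn, one_div]
          exact qsub_le (hq' i) (hh i)
        exact int_iff (n + n) (q₀ i).2 (q' i).2 0 h3
      · simp
    · have hgx : g x = 0 := by
        by_contra h0
        exact hx (g2 x h0)
      rw [hgx]
      symm
      apply sum_eq_zero
      intro q _
      rw [bal, ind_neg, mul_zero]
      intro hh
      apply hx
      intro i
      have h1 : x i = (x i - Y q i) + Y q i := by ring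
      rw [h1]
      apply qadd_le
      · refine (hh i).trans ?_
        have h2 : (1 : ℝ) ≤ (p : ℝ) ^ n := one_le_pow₀ (one_lt_p p).le
        exact (inv_le_one_of_one_le₀ h2).trans h2
      · exact norm_nat_div_le _ _
  rw [hsum]
  apply Submodule.sum_mem
  intro q _
  apply Submodule.smul_mem
  exact hbal _

end Pool.Agent.Q247.HN
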