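import Pool.Agent.Q247.HN.Op

/-!
# The lattice and the main claim
-/

set_option autoImplicit false
set_option linter.unusedSectionVars false

namespace Pool.Agent.Q247.HN

open Finset

variable {p : ℕ} [hp : Fact p.Prime] {C : Type*} [NormedField C] [NormedAlgebra ℚ_[p] C]
  [IsUltrametricDist C] {d : ℕ}

/-- The basis vector `s w_i`. -/
noncomputable def sg (i : Fin d ⊕ Fin d) (s : ℚ_[p]) : Fin d ⊕ Fin d → ℚ_[p] := Pi.single i s

theorem sg_add (i : Fin d ⊕ Fin d) (s t : ℚ_[p]) : sg i (s + t) = sg i s + sg i t := by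
  rw [sg, sg, sg, Pi.single_add]

theorem B_sg (i : Fin d ⊕ Fin d) (s t : ℚ_[p]) : B (sg i s) (sg i t) = 0 := by
  rw [B]
  refine sum_eq_zero fun j _ => ?_
  rcases i with i | i
  · have : (sg (Sum.inl i) t : Fin d ⊕ Fin d → ℚ_[p]) (Sum.inr j) = 0 := by
      rw [sg, Pi.single_eq_of_ne]
      simp
    rw [this, mul_zero]
  · have : (sg (Sum.inr i) s : Fin d ⊕ Fin d → ℚ_[p]) (Sum.inl j) = 0 := by
      rw [sg, Pi.single_eq_of_ne]
      simp
    rw [this, zero_mul]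

theorem sg_norm (i : Fin d ⊕ Fin d) (s : ℚ_[p]) {r : ℝ} (hr : 0 ≤ r) (hs : ‖s‖ ≤ r)
    (j : Fin d ⊕ Fin d) : ‖(sg i s) j‖ ≤ r := by
  rw [sg]
  by_cases h : j = i
  · subst h
    rwa [Pi.single_eq_same]
  · rw [Pi.single_eq_of_ne h, norm_zero]
    exact hr

theorem E_sg (χ : AddChar ℚ_[p] C) (i : Fin d ⊕ Fin d) (s t : ℚ_[p])
    (f : (Fin d → ℚ_[p]) → C) : E χ (sg i s) (E χ (sg i t) f) = E χ (sg i (s + t)) f := by
  rw [E_comp, B_sg, AddChar.map_zero_eq_one, one_smul, sg_add]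

/-- The vectors `X_t = E(t/p^N w_i) v_0`. -/
noncomputable def X (χ : AddChar ℚ_[p] C) (i : Fin d ⊕ Fin d) (N t : ℕ) : (Fin d → ℚ_[p]) → C :=
  E χ (sg i ((t : ℚ_[p]) / (p : ℚ_[p]) ^ N)) (v0 p C d)

/-- The twisted sums `F_b = ∑ ω^(b t) X_t`. -/
noncomputable def F (χ : AddChar ℚ_[p] C) (i : Fin d ⊕ Fin d) (N b : ℕ) : (Fin d → ℚ_[p]) → C :=
  ∑ t ∈ range (p ^ N), om χ N ^ (b * t) • X χ i N t

theorem E_X (χ : AddChar ℚ_[p] C) (i : Fin d ⊕ Fin d) (N j t : ℕ) :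
    E χ (sg i ((j : ℚ_[p]) / (p : ℚ_[p]) ^ N)) (X χ i N t) = X χ i N (t + j) := by
  rw [X, E_sg, X]
  congr 2
  push_cast
  ring

theorem X_per {χ : AddChar ℚ_[p] C} (h : Good χ) (i : Fin d ⊕ Fin d) (N t : ℕ) :
    X χ i N (p ^ N + t) = X χ i N t := by
  have h1 : sg i (((p ^ N + t : ℕ) : ℚ_[p]) / (p : ℚ_[p]) ^ N) =
      (sg i (((t : ℚ_[p]) / (p : ℚ_[p]) ^ N) + 1) : Fin d ⊕ Fin d → ℚ_[p]) := by
    congr 1
    have := pow_ne_zero N (p_ne (p := p))
    push_cast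
    field_simp
    ring
  rw [X, h1, ← E_sg, E_lam h (fun j => sg_norm i 1 zero_le_one (by simp) j), X]

theorem per_shift {M : Type*} [AddCommGroup M] (P : ℕ) (f : ℕ → M)
    (hf : ∀ t, f (P + t) = f t) (j : ℕ) :
    ∑ t ∈ range P, f (t + j) = ∑ t ∈ range P, f t := by
  induction j with
  | zero => simp
  | succ j ih =>
    rw [← ih]
    have h1 := sum_range_succ (fun t => f (t + j)) P
    have h2 := sum_range_succ' (fun t => f (t + j)) P
    have h3 : f (P + j) = f (0 + j) := by rw [hf, zero_add]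
    rw [h1, h3] at h2
    have h4 := add_right_cancel h2
    rw [h4]
    refine sum_congr rfl fun t _ => ?_
    congr 1
    ring

theorem F_shift {χ : AddChar ℚ_[p] C} (h : Good χ) (i : Fin d ⊕ Fin d) (N b j : ℕ) :
    om χ N ^ (b * j) • E χ (sg i ((j : ℚ_[p]) / (p : ℚ_[p]) ^ N)) (F χ i N b) = F χ i N b := by
  rw [F, map_sum, smul_sum]
  have h1 : ∀ t ∈ range (p ^ N), om χ N ^ (b * j) •
      E χ (sg i ((j : ℚ_[p]) / (p : ℚ_[p]) ^ N)) (om χ N ^ (b * t) • X χ i N t) =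
      om χ N ^ (b * (t + j)) • X χ i N (t + j) := by
    intro t _
    rw [map_smul, E_X, smul_smul, ← pow_add]
    congr 2
    ring
  rw [sum_congr rfl h1]
  exact per_shift (p ^ N) (fun t => om χ N ^ (b * t) • X χ i N t) (fun t => by
    rw [X_per h, mul_add, pow_add, mul_comm b (p ^ N), pow_mul, om_root h, one_pow, one_mul]) j

/-- `E λ u_N` is a twisted sum. -/
theorem E_lam_F {χ : AddChar ℚ_[p] C} (h : Good χ) (i : Fin d ⊕ Fin d) (N : ℕ)
    {l : Fin d ⊕ Fin d → ℚ_[p]} (hl : ∀ j, ‖l j‖ ≤ 1) :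
    ∃ b : ℕ, E χ l (F χ i N 0) = F χ i N b := by
  set s : Fin d ⊕ Fin d → ℚ_[p] := sg i (1 / (p : ℚ_[p]) ^ N) with hs
  have hpn : (0 : ℝ) ≤ (p : ℝ) ^ N := by positivity
  have hsn : ∀ j, ‖s j‖ ≤ (p : ℝ) ^ N := fun j => sg_norm i _ hpn (by
    have := norm_nat_div_le (p := p) N 1
    simpa using this) j
  have hβ : ‖B l s - B s l‖ ≤ (p : ℝ) ^ N := by
    apply qsub_le
    · apply qsum_le _ hpn
      intro j _
      rw [norm_mul]
      calc _ ≤ 1 * (p : ℝ) ^ N := by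
            gcongr
            · exact hl _
            · exact hsn _
        _ = _ := one_mul _
    · apply qsum_le _ hpn
      intro j _
      rw [norm_mul]
      calc _ ≤ (p : ℝ) ^ N * 1 := by
            gcongr
            · exact hsn _
            · exact hl _
        _ = _ := mul_one _
  obtain ⟨b, -, hb⟩ := red1 N _ hβ
  refine ⟨b, ?_⟩
  rw [F, F, map_sum]
  refine sum_congr rfl fun t _ => ?_
  rw [zero_mul, pow_zero, one_smul, X, E_comm, E_lam h hl]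
  congr 1
  have h1 : (sg i ((t : ℚ_[p]) / (p : ℚ_[p]) ^ N) : Fin d ⊕ Fin d → ℚ_[p]) = (t : ℚ_[p]) • s := by
    rw [hs, sg, sg, ← Pi.single_smul, smul_eq_mul]
    congr 1
    ring
  have h2 : B l (sg i ((t : ℚ_[p]) / (p : ℚ_[p]) ^ N)) - B (sg i ((t : ℚ_[p]) / (p : ℚ_[p]) ^ N)) l =
      t • (B l s - B s l) := by
    rw [h1, nsmul_eq_mul, mul_sub]
    congr 1
    · rw [B, B, mul_sum]
      refine sum_congr rfl fun j _ => ?_
      simp only [Pi.smul_apply, smul_eq_mul]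
      ring
    · rw [B, B, mul_sum]
      refine sum_congr rfl fun j _ => ?_
      simp only [Pi.smul_apply, smul_eq_mul]
      ring
  rw [h2, AddChar.map_nsmul_eq_pow, pow_mul]
  congr 1
  rw [om_pow]
  have h3 : B l s - B s l = (b : ℚ_[p]) / (p : ℚ_[p]) ^ N +
      (B l s - B s l - (b : ℚ_[p]) / (p : ℚ_[p]) ^ N) := by ring
  rw [h3, AddChar.map_add_eq_mul, h.triv _ hb, mul_one]

/-- The levels: `m_k = k + 2d + 1`, `n_k = k p^(m_k) + m_k`. -/
def mm (d k : ℕ) : ℕ := k + 2 * d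

def nn (p d k : ℕ) : ℕ := k * p ^ (mm d k + 1) + (mm d k + 1)

theorem mm_le_nn (p d k : ℕ) : mm d k + 1 ≤ nn p d k := Nat.le_add_left _ _

/-- The number `r_k` of the twisted sums that are used. -/
def rr (p d k : ℕ) : ℕ := p ^ (k * p ^ (mm d k + 1))

/-- The vectors `z` in `p^(-n) ℤ^(2d)` with `i`-th coordinate `c / p^n`, `c < p^(n - n_k)`. -/
noncomputable def zz (n : ℕ) (i : Fin d ⊕ Fin d) (o : {j // j ≠ i} → Fin (p ^ n)) (c : ℕ) :
    Fin d ⊕ Fin d → ℚ_[p] := fun j => open Classical in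
  if hj : j = i then (c : ℚ_[p]) / (p : ℚ_[p]) ^ n
  else ((o ⟨j, hj⟩ : ℕ) : ℚ_[p]) / (p : ℚ_[p]) ^ n

/-- The index type of the generators for `k` and `i`. -/
abbrev Ix (p d n k : ℕ) (i : Fin d ⊕ Fin d) : Type :=
  ({j // j ≠ i} → Fin (p ^ n)) × Fin (p ^ (n - nn p d k)) × Fin (rr p d k)

/-- The index type. -/
abbrev Iy (p d n K : ℕ) : Type := Σ k : Fin K, Σ i : Fin d ⊕ Fin d, Ix p d n (k + 1) i

/-- The generators. -/
noncomputable def gen (χ : AddChar ℚ_[p] C) (n K : ℕ) (x : Iy p d n K) : (Fin d → ℚ_[p]) → C :=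
  E χ (zz n x.2.1 x.2.2.1 (x.2.2.2.1 : ℕ)) (F χ x.2.1 (nn p d (x.1 + 1)) (x.2.2.2.2 : ℕ))

/-- The span of the generators. -/
noncomputable def U (χ : AddChar ℚ_[p] C) (d n K : ℕ) : Submodule C ((Fin d → ℚ_[p]) → C) :=
  Submodule.span C (Set.range (gen (d := d) χ n K))

/-- The property `f ∈ L_{0,n} + U`. -/
def InL (χ : AddChar ℚ_[p] C) (n K : ℕ) (f : (Fin d → ℚ_[p]) → C) : Prop :=
  ∃ c : (Fin d ⊕ Fin d → Fin (p ^ n)) → C, (∀ q, ‖c q‖ ≤ 1) ∧
    f - ∑ q, c q • e χ n q ∈ U χ d n K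

theorem InL.zero (χ : AddChar ℚ_[p] C) (n K : ℕ) : InL χ n K (0 : (Fin d → ℚ_[p]) → C) :=
  ⟨fun _ => 0, fun _ => by simp, by simp⟩

theorem InL.add {χ : AddChar ℚ_[p] C} {n K : ℕ} {f g : (Fin d → ℚ_[p]) → C}
    (hf : InL χ n K f) (hg : InL χ n K g) : InL χ n K (f + g) := by
  obtain ⟨c, hc, hc'⟩ := hf
  obtain ⟨c', hd, hd'⟩ := hg
  refine ⟨fun q => c q + c' q, fun q =>
    (IsUltrametricDist.norm_add_le_max _ _).trans (max_le (hc q) (hd q)), ?_⟩
  have h1 : f + g - ∑ q, (c q + c' q) • e χ n q =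
      (f - ∑ q, c q • e χ n q) + (g - ∑ q, c' q • e χ n q) := by
    simp only [add_smul, sum_add_distrib]
    abel
  rw [h1]
  exact Submodule.add_mem _ hc' hd'

theorem InL.smul {χ : AddChar ℚ_[p] C} {n K : ℕ} {f : (Fin d → ℚ_[p]) → C} {a : C} (ha : ‖a‖ ≤ 1)
    (hf : InL χ n K f) : InL χ n K (a • f) := by
  obtain ⟨c, hc, hc'⟩ := hf
  refine ⟨fun q => a * c q, fun q => ?_, ?_⟩
  · rw [norm_mul]
    exact mul_le_one₀ ha (norm_nonneg _) (hc q)
  · have h1 : a • f - ∑ q, (a * c q) • e χ n q = a • (f - ∑ q, c q • e χ n q) := by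
      rw [smul_sub, smul_sum]
      simp only [smul_smul]
    rw [h1]
    exact Submodule.smul_mem _ _ hc'

theorem InL.of_U {χ : AddChar ℚ_[p] C} {n K : ℕ} {f : (Fin d → ℚ_[p]) → C} (hf : f ∈ U χ d n K) :
    InL χ n K f := ⟨fun _ => 0, fun _ => by simp, by simpa using hf⟩

theorem InL.sum {χ : AddChar ℚ_[p] C} {n K : ℕ} {ι : Type*} (s : Finset ι)
    {f : ι → (Fin d → ℚ_[p]) → C} (hf : ∀ i ∈ s, InL χ n K (f i)) : InL χ n K (∑ i ∈ s, f i) := by
  classical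
  induction s using Finset.induction_on with
  | empty => simpa using InL.zero χ n K
  | insert a s ha ih =>
    rw [sum_insert ha]
    exact InL.add (hf a (mem_insert_self _ _)) (ih fun i hi => hf i (mem_insert_of_mem hi))

theorem InL.e {χ : AddChar ℚ_[p] C} (n K : ℕ) (q : Fin d ⊕ Fin d → Fin (p ^ n)) :
    InL χ n K (e χ n q) := by
  classical
  refine ⟨fun q' => if q' = q then 1 else 0, fun q' => ?_, ?_⟩
  · by_cases hq : q' = q <;> simp [hq]
  · have : ∑ q', (if q' = q then (1 : C) else 0) • HN.e χ n q' = HN.e χ n q := by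
      rw [sum_eq_single q]
      · simp
      · intro b _ hb
        simp [hb]
      · simp
    rw [this, sub_self]
    exact Submodule.zero_mem _

theorem InL.E {χ : AddChar ℚ_[p] C} (h : Good χ) (n K : ℕ) (y : Fin d ⊕ Fin d → ℚ_[p])
    (hy : ∀ j, ‖y j‖ ≤ (p : ℝ) ^ n) : InL χ n K (E χ y (v0 p C d)) := by
  obtain ⟨q, c, hc, hq⟩ := E_red h n y hy
  rw [hq]
  exact InL.smul hc.le (InL.e n K q)

theorem zz_norm (n : ℕ) (i : Fin d ⊕ Fin d) (o : {j // j ≠ i} → Fin (p ^ n)) (c : ℕ)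
    (j : Fin d ⊕ Fin d) : ‖zz n i o c j‖ ≤ (p : ℝ) ^ n := by
  rw [zz]
  split_ifs with hj
  · exact norm_nat_div_le _ _
  · exact norm_nat_div_le _ _

theorem pow_mono {n m : ℕ} (h : n ≤ m) : (p : ℝ) ^ n ≤ (p : ℝ) ^ m :=
  pow_le_pow_right₀ (one_lt_p p).le h

/-- Reduction of `E y u` to a twisted sum. -/
theorem E_u {χ : AddChar ℚ_[p] C} (h : Good χ) (i : Fin d ⊕ Fin d) {n N : ℕ} (hN : N ≤ n)
    (y : Fin d ⊕ Fin d → ℚ_[p]) (hy : ∀ j, ‖y j‖ ≤ (p : ℝ) ^ n) :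
    ∃ (o : {j // j ≠ i} → Fin (p ^ n)) (c : ℕ) (b : ℕ) (ζ : C), c < p ^ (n - N) ∧ ‖ζ‖ = 1 ∧
      E χ y (F χ i N 0) = ζ • E χ (zz n i o c) (F χ i N b) := by
  obtain ⟨q, hq⟩ := redW n y hy
  set l := y - yq n q with hl
  have hPpos : 0 < p ^ (n - N) := pow_pos hp.out.pos _
  set c := (q i : ℕ) % p ^ (n - N) with hc
  set j := (q i : ℕ) / p ^ (n - N) with hj
  set o : {j // j ≠ i} → Fin (p ^ n) := fun j => q j.1 with ho
  obtain ⟨b, hb⟩ := E_lam_F h i N hq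
  have h1 : yq n q = zz n i o c + sg i ((j : ℚ_[p]) / (p : ℚ_[p]) ^ N) := by
    funext t
    rw [Pi.add_apply, zz, sg]
    by_cases ht : t = i
    · subst ht
      rw [dif_pos rfl, Pi.single_eq_same, yq]
      have h2 : (q t : ℕ) = c + p ^ (n - N) * j := by
        rw [hc, hj]
        exact (Nat.mod_add_div _ _).symm
      have h3 : (p : ℚ_[p]) ^ n = (p : ℚ_[p]) ^ (n - N) * (p : ℚ_[p]) ^ N := by
        rw [← pow_add, Nat.sub_add_cancel hN]
      have h4 := pow_ne_zero (n - N) (p_ne (p := p))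
      have h5 := pow_ne_zero N (p_ne (p := p))
      rw [h2, h3]
      push_cast
      field_simp
    · rw [dif_neg ht, Pi.single_eq_of_ne ht, add_zero, yq]
  refine ⟨o, c, b, χ (-B (zz n i o c) (sg i ((j : ℚ_[p]) / (p : ℚ_[p]) ^ N) + l)) *
    (χ (-B (sg i ((j : ℚ_[p]) / (p : ℚ_[p]) ^ N)) l) * (om χ N ^ (b * j))⁻¹),
    Nat.mod_lt _ hPpos, ?_, ?_⟩
  · rw [norm_mul, norm_mul, norm_inv, norm_pow, h.norm_eq, h.norm_eq, om, h.norm_eq]
    simp
  · have h2 : y = zz n i o c + (sg i ((j : ℚ_[p]) / (p : ℚ_[p]) ^ N) + l) := by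
      rw [← add_assoc, ← h1, hl]
      ring
    have hom : om χ N ^ (b * j) ≠ 0 := pow_ne_zero _ (χ_ne χ _)
    have h3 : E χ (sg i ((j : ℚ_[p]) / (p : ℚ_[p]) ^ N)) (F χ i N b) =
        (om χ N ^ (b * j))⁻¹ • F χ i N b := by
      rw [← F_shift h i N b j, smul_smul, inv_mul_cancel₀ hom, one_smul, F_shift h i N b j]
    conv_lhs => rw [h2]
    rw [E_add, E_add χ (sg i ((j : ℚ_[p]) / (p : ℚ_[p]) ^ N)) l, hb, h3]
    simp only [map_smul, smul_smul]

/-- The orbit elements of `p^(-k) u_(n_k)` are in `L_{0,n} + U`. -/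
theorem InL.u {χ : AddChar ℚ_[p] C} (h : Good χ) (i : Fin d ⊕ Fin d) {n K k : ℕ} (hk : k < K)
    (hn : nn p d (k + 1) ≤ n) (y : Fin d ⊕ Fin d → ℚ_[p]) (hy : ∀ j, ‖y j‖ ≤ (p : ℝ) ^ n) :
    InL χ n K (((p : C) ^ (k + 1))⁻¹ • HN.E χ y (F χ i (nn p d (k + 1)) 0)) := by
  set N := nn p d (k + 1) with hN
  obtain ⟨o, c, b, ζ, hc, hζ, hE⟩ := E_u h i hn y hy
  rw [hE, smul_comm]
  apply InL.smul hζ.le
  obtain ⟨R, hR⟩ := approx p (k + 1) (mm d (k + 1)) (om χ N) (om_root h N) b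
  set z := zz n i o c with hz
  have hpn : ‖((p : C) ^ (k + 1))⁻¹‖ = ((p : ℝ) ^ (k + 1)) := by
    rw [norm_inv, norm_pow, norm_p p C, inv_pow, inv_inv]
  have h1 : HN.E χ z (F χ i N b) =
      (∑ b' ∈ range (rr p d (k + 1)), R b' • HN.E χ z (F χ i N b')) +
      ∑ t ∈ range (p ^ N), (om χ N ^ (b * t) -
        ∑ b' ∈ range (rr p d (k + 1)), R b' * om χ N ^ (b' * t)) • HN.E χ z (X χ i N t) := by
    have h2 : ∀ b', HN.E χ z (F χ i N b') =
        ∑ t ∈ range (p ^ N), om χ N ^ (b' * t) • HN.E χ z (X χ i N t) := by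
      intro b'
      rw [F, map_sum]
      simp only [map_smul]
    simp only [h2, sub_smul, sum_sub_distrib]
    have h3 : ∑ b' ∈ range (rr p d (k + 1)), R b' •
        ∑ t ∈ range (p ^ N), om χ N ^ (b' * t) • HN.E χ z (X χ i N t) =
        ∑ t ∈ range (p ^ N), (∑ b' ∈ range (rr p d (k + 1)), R b' * om χ N ^ (b' * t)) •
          HN.E χ z (X χ i N t) := by
      simp only [smul_sum, sum_smul, smul_smul]
      rw [sum_comm]
    rw [h3]
    abel
  rw [h1, smul_add]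
  apply InL.add
  · apply InL.of_U
    apply Submodule.smul_mem
    apply Submodule.sum_mem
    intro b' hb'
    apply Submodule.smul_mem
    apply Submodule.subset_span
    refine ⟨⟨⟨k, hk⟩, i, o, ⟨c, hc⟩, ⟨b', mem_range.1 hb'⟩⟩, ?_⟩
    rw [gen]
  · rw [smul_sum]
    apply InL.sum
    intro t _
    rw [smul_smul]
    apply InL.smul
    · rw [norm_mul, hpn]
      have h2 := hR t
      have h3 : (0 : ℝ) < (p : ℝ) ^ (k + 1) := pow_pos (p_pos p) _
      rw [inv_pow] at h2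
      calc _ ≤ (p : ℝ) ^ (k + 1) * ((p : ℝ) ^ (k + 1))⁻¹ := by
            gcongr
            exact h2
        _ = 1 := mul_inv_cancel₀ h3.ne'
    · rw [X, E_comp]
      apply InL.smul (h.norm_eq _).le
      apply InL.E h
      intro j
      rw [Pi.add_apply]
      apply qadd_le (zz_norm n i o c j)
      apply sg_norm i _ (by positivity)
      exact (norm_nat_div_le N t).trans (pow_mono hn)

/-- The generators of the lattice. -/
inductive IsGen (χ : AddChar ℚ_[p] C) : ((Fin d → ℚ_[p]) → C) → Prop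
  | base (y : Fin d ⊕ Fin d → ℚ_[p]) : IsGen χ (E χ y (v0 p C d))
  | step (y : Fin d ⊕ Fin d → ℚ_[p]) (i : Fin d ⊕ Fin d) (k : ℕ) :
      IsGen χ (((p : C) ^ (k + 1))⁻¹ • E χ y (F χ i (nn p d (k + 1)) 0))

/-- The lattice. -/
inductive Lat (χ : AddChar ℚ_[p] C) : ((Fin d → ℚ_[p]) → C) → Prop
  | zero : Lat χ 0
  | add (c : C) (f g : (Fin d → ℚ_[p]) → C) (hc : ‖c‖ ≤ 1) (hf : IsGen χ f) (hg : Lat χ g) :
      Lat χ (c • f + g)

theorem Lat.E {χ : AddChar ℚ_[p] C} (h : Good χ) (y : Fin d ⊕ Fin d → ℚ_[p])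
    {f : (Fin d → ℚ_[p]) → C} (hf : Lat χ f) : Lat χ (HN.E χ y f) := by
  induction hf with
  | zero => rw [map_zero]; exact Lat.zero
  | add c f g hc hf _ ih =>
    rw [map_add, map_smul]
    cases hf with
    | base z =>
      rw [E_comp, smul_smul]
      apply Lat.add _ _ _ _ (IsGen.base _) ih
      rw [norm_mul, h.norm_eq, mul_one]
      exact hc
    | step z i k =>
      rw [map_smul, E_comp, smul_comm _ (χ (B y z)), smul_smul]
      apply Lat.add _ _ _ _ (IsGen.step _ _ _) ih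
      rw [norm_mul, h.norm_eq, mul_one]
      exact hc

theorem Lat.plus {χ : AddChar ℚ_[p] C} {f g : (Fin d → ℚ_[p]) → C} (hf : Lat χ f) (hg : Lat χ g) :
    Lat χ (f + g) := by
  induction hf with
  | zero => rwa [zero_add]
  | add c f g hc hf _ ih =>
    rw [add_assoc]
    exact Lat.add _ _ _ hc hf ih

theorem Lat.smul {χ : AddChar ℚ_[p] C} {f : (Fin d → ℚ_[p]) → C} {a : C} (ha : ‖a‖ ≤ 1)
    (hf : Lat χ f) : Lat χ (a • f) := by
  induction hf with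
  | zero => rw [smul_zero]; exact Lat.zero
  | add c f g hc hf _ ih =>
    rw [smul_add, smul_smul]
    apply Lat.add _ _ _ _ hf ih
    rw [norm_mul]
    exact mul_le_one₀ ha (norm_nonneg _) hc

theorem Lat.gen {χ : AddChar ℚ_[p] C} {f : (Fin d → ℚ_[p]) → C} (hf : IsGen χ f) : Lat χ f := by
  have := Lat.add 1 f 0 (by simp) hf Lat.zero
  simpa using this

theorem nn_mono (p d : ℕ) [hp : Fact p.Prime] {k l : ℕ} (h : k ≤ l) : nn p d k ≤ nn p d l := by
  have h1 : mm d k + 1 ≤ mm d l + 1 := by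
    unfold mm
    omega
  unfold nn
  exact Nat.add_le_add (Nat.mul_le_mul h (Nat.pow_le_pow_right hp.out.pos h1)) h1

/-- Every element of the lattice is, with its translates, in `L_{0,n} + U` for large `n`. -/
theorem Lat.inL {χ : AddChar ℚ_[p] C} (h : Good χ) {f : (Fin d → ℚ_[p]) → C} (hf : Lat χ f) :
    ∃ K₀ n₀ : ℕ, ∀ K ≥ K₀, ∀ n ≥ n₀, ∀ y : Fin d ⊕ Fin d → ℚ_[p], (∀ j, ‖y j‖ ≤ (p : ℝ) ^ n) →
      InL χ n K (HN.E χ y f) := by
  induction hf with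
  | zero => exact ⟨0, 0, fun K _ n _ y _ => by rw [map_zero]; exact InL.zero χ n K⟩
  | add c f g hc hf _ ih =>
    obtain ⟨K₁, n₁, ih⟩ := ih
    have hf' : ∃ K₀ n₀ : ℕ, ∀ K ≥ K₀, ∀ n ≥ n₀, ∀ y : Fin d ⊕ Fin d → ℚ_[p],
        (∀ j, ‖y j‖ ≤ (p : ℝ) ^ n) → InL χ n K (HN.E χ y f) := by
      have hb : ∀ z : Fin d ⊕ Fin d → ℚ_[p], ∃ n₀ : ℕ, ∀ j, ‖z j‖ ≤ (p : ℝ) ^ n₀ := by
        intro z
        choose N hN using fun j => exists_pow_le (z j)
        refine ⟨univ.sup N, fun j => (hN j).trans (pow_mono (le_sup (mem_univ j)))⟩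
      cases hf with
      | base z =>
        obtain ⟨n₀, hn₀⟩ := hb z
        refine ⟨0, n₀, fun K _ n hn y hy => ?_⟩
        rw [E_comp]
        apply InL.smul (h.norm_eq _).le
        apply InL.E h
        intro j
        exact qadd_le (hy j) ((hn₀ j).trans (pow_mono hn))
      | step z i k =>
        obtain ⟨n₀, hn₀⟩ := hb z
        refine ⟨k + 1, max n₀ (nn p d (k + 1)), fun K hK n hn y hy => ?_⟩
        rw [map_smul, E_comp, smul_comm]
        apply InL.smul (h.norm_eq _).le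
        apply InL.u h i hK ((le_max_right _ _).trans hn)
        intro j
        exact qadd_le (hy j) ((hn₀ j).trans (pow_mono ((le_max_left _ _).trans hn)))
    obtain ⟨K₂, n₂, hf'⟩ := hf'
    refine ⟨max K₁ K₂, max n₁ n₂, fun K hK n hn y hy => ?_⟩
    rw [map_add, map_smul]
    exact InL.add (InL.smul hc (hf' K ((le_max_right _ _).trans hK) n
      ((le_max_right _ _).trans hn) y hy))
      (ih K ((le_max_left _ _).trans hK) n ((le_max_left _ _).trans hn) y hy)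

end Pool.Agent.Q247.HN
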