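import Pool.Agent.Q247.HN.Claim
import Pool.Agent.Q247.HN.Irr

/-!
# The norm defined by the lattice, and its behaviour on the vectors `u_N`
-/

set_option autoImplicit false
set_option linter.unusedSectionVars false

namespace Pool.Agent.Q247.HN

open Finset Topology

variable {p : ℕ} [hp : Fact p.Prime] {C : Type*} [NormedField C] [NormedAlgebra ℚ_[p] C]
  [IsUltrametricDist C] {d : ℕ}

/-! ### Schwartz functions -/

theorem sch_mul_translate {m f : (Fin d → ℚ_[p]) → C} (hm : IsLocallyConstant m)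
    (hf : f ∈ Sch p C d) (a : Fin d → ℚ_[p]) : (fun x => m x * f (x + a)) ∈ Sch p C d := by
  refine ⟨?_, ?_⟩
  · exact hm.mul (hf.1.comp_continuous (continuous_id.add continuous_const))
  · have h1 : HasCompactSupport (f ∘ Homeomorph.addRight a) := hf.2.comp_homeomorph _
    exact HasCompactSupport.mul_left (f := m) h1

theorem char_lc {ψ : AddChar ℚ_[p] C} (hψ : IsOpen {x | ψ x = 1}) : IsLocallyConstant ψ := by
  rw [IsLocallyConstant.iff_eventually_eq]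
  intro x
  have h1 : Filter.Tendsto (fun y => y - x) (𝓝 x) (𝓝 0) := by
    have : Filter.Tendsto (fun y => y - x) (𝓝 x) (𝓝 (x - x)) :=
      (continuous_id.sub continuous_const).tendsto x
    rwa [sub_self] at this
  have h2 : {x | ψ x = 1} ∈ 𝓝 (0 : ℚ_[p]) := hψ.mem_nhds (by simp)
  filter_upwards [h1 h2] with y hy
  have h3 : y = x + (y - x) := by ring
  rw [h3, AddChar.map_add_eq_mul]
  have h4 : ψ (y - x) = 1 := hy
  rw [h4, mul_one]

theorem lin_cont (b : Fin d → ℚ_[p]) : Continuous fun x : Fin d → ℚ_[p] => ∑ i, b i * x i :=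
  continuous_finsetSum _ fun i _ => continuous_const.mul (continuous_apply i)

theorem v0_mem : v0 p C d ∈ Sch p C d := by
  refine ⟨?_, ?_⟩
  · rw [IsLocallyConstant.iff_eventually_eq]
    intro x
    have h1 : Metric.ball x 1 ∈ 𝓝 x := Metric.ball_mem_nhds x one_pos
    filter_upwards [h1] with y hy
    rw [Metric.mem_ball, dist_eq_norm] at hy
    have h2 : ∀ i, ‖y i - x i‖ ≤ 1 := fun i => ((norm_le_pi_norm (y - x) i).trans hy.le)
    have h3 : (∀ i, ‖y i‖ ≤ 1) ↔ ∀ i, ‖x i‖ ≤ 1 := by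
      refine forall_congr' fun i => ⟨fun h => ?_, fun h => ?_⟩
      · have := qsub_le h (h2 i)
        simpa using this
      · have := qadd_le (h2 i) h
        simpa using this
    by_cases hx : ∀ i, ‖x i‖ ≤ 1
    · rw [v0, v0, if_pos hx, if_pos (h3.2 hx)]
    · rw [v0, v0, if_neg hx, if_neg (fun hh => hx (h3.1 hh))]
  · refine HasCompactSupport.intro (isCompact_closedBall (0 : Fin d → ℚ_[p]) 1) ?_
    intro x hx
    rw [v0, if_neg]
    intro hh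
    apply hx
    rw [mem_closedBall_zero_iff]
    exact (pi_norm_le_iff_of_nonneg zero_le_one).2 hh

theorem v0_ne : v0 p C d ≠ 0 := by
  intro h
  have h1 := congrFun h 0
  rw [v0, if_pos (by simp)] at h1
  exact one_ne_zero h1

theorem Good.lc {χ : AddChar ℚ_[p] C} (h : Good χ) : IsLocallyConstant χ := by
  rw [IsLocallyConstant.iff_eventually_eq]
  intro x
  have h1 : Metric.ball x 1 ∈ 𝓝 x := Metric.ball_mem_nhds x one_pos
  filter_upwards [h1] with y hy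
  rw [Metric.mem_ball, dist_eq_norm] at hy
  have h3 : y = x + (y - x) := by ring
  rw [h3, AddChar.map_add_eq_mul, h.triv _ hy.le, mul_one]

theorem E_mem {χ : AddChar ℚ_[p] C} (h : Good χ) (y : Fin d ⊕ Fin d → ℚ_[p])
    {f : (Fin d → ℚ_[p]) → C} (hf : f ∈ Sch p C d) : E χ y f ∈ Sch p C d :=
  sch_mul_translate (m := fun x => χ (∑ i, y (Sum.inr i) * x i))
    (h.lc.comp_continuous (lin_cont _)) hf (fun i => y (Sum.inl i))

/-! ### The norm -/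

theorem lat_mono {χ : AddChar ℚ_[p] C} {c c' : C} (hc : c ≠ 0) (hcc : ‖c‖ ≤ ‖c'‖)
    {f : (Fin d → ℚ_[p]) → C} (hf : Lat χ (c⁻¹ • f)) : Lat χ (c'⁻¹ • f) := by
  have hc' : c' ≠ 0 := by
    intro h0
    rw [h0, norm_zero] at hcc
    exact hc (norm_le_zero_iff.1 hcc)
  have h1 : c'⁻¹ • f = (c'⁻¹ * c) • (c⁻¹ • f) := by
    rw [smul_smul, mul_assoc, mul_inv_cancel₀ hc, mul_one]
  rw [h1]
  apply Lat.smul _ hf
  rw [norm_mul, norm_inv, inv_mul_le_iff₀ (norm_pos_iff.2 hc'), mul_one]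
  exact hcc

/-- The functions absorbed by the lattice. -/
def absM (χ : AddChar ℚ_[p] C) (d : ℕ) : Submodule C ((Fin d → ℚ_[p]) → C) where
  carrier := {f | ∃ c : C, c ≠ 0 ∧ Lat χ (c⁻¹ • f)}
  zero_mem' := ⟨1, one_ne_zero, by rw [smul_zero]; exact Lat.zero⟩
  add_mem' := by
    rintro f g ⟨c, hc, hf⟩ ⟨c', hc', hg⟩
    rcases le_total ‖c‖ ‖c'‖ with h | h
    · exact ⟨c', hc', by rw [smul_add]; exact Lat.plus (lat_mono hc h hf) hg⟩
    · exact ⟨c, hc, by rw [smul_add]; exact Lat.plus hf (lat_mono hc' h hg)⟩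
  smul_mem' := by
    rintro a f ⟨c, hc, hf⟩
    by_cases ha : a = 0
    · exact ⟨1, one_ne_zero, by rw [ha, zero_smul, smul_zero]; exact Lat.zero⟩
    · refine ⟨a * c, mul_ne_zero ha hc, ?_⟩
      rw [smul_smul, mul_inv, mul_comm a⁻¹, mul_assoc, inv_mul_cancel₀ ha, mul_one]
      exact hf

theorem absorb {χ : AddChar ℚ_[p] C} (h : Good χ) {f : (Fin d → ℚ_[p]) → C}
    (hf : f ∈ Sch p C d) : ∃ c : C, c ≠ 0 ∧ Lat χ (c⁻¹ • f) := by
  have h1 : Stable χ (absM χ d) := by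
    rintro y f ⟨c, hc, hf⟩
    refine ⟨c, hc, ?_⟩
    rw [← map_smul]
    exact Lat.E h y hf
  have h2 : v0 p C d ∈ absM χ d := by
    refine ⟨1, one_ne_zero, ?_⟩
    rw [inv_one, one_smul]
    apply Lat.gen
    have := IsGen.base (χ := χ) (0 : Fin d ⊕ Fin d → ℚ_[p])
    rwa [E_zero] at this
  exact irr h h1 h2 v0_mem v0_ne hf

/-- The functions controlled by `f`. -/
def ctrM (χ : AddChar ℚ_[p] C) (f : (Fin d → ℚ_[p]) → C) :
    Submodule C ((Fin d → ℚ_[p]) → C) where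
  carrier := {g | ∃ a : C, a ≠ 0 ∧ ∀ c : C, c ≠ 0 → Lat χ (c⁻¹ • f) → Lat χ ((a * c)⁻¹ • g)}
  zero_mem' := ⟨1, one_ne_zero, fun c _ _ => by rw [smul_zero]; exact Lat.zero⟩
  add_mem' := by
    rintro g g' ⟨a, ha, hg⟩ ⟨a', ha', hg'⟩
    rcases le_total ‖a‖ ‖a'‖ with h | h
    · refine ⟨a', ha', fun c hc hL => ?_⟩
      rw [smul_add]
      refine Lat.plus (lat_mono (mul_ne_zero ha hc) ?_ (hg c hc hL)) (hg' c hc hL)
      rw [norm_mul, norm_mul]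
      gcongr
    · refine ⟨a, ha, fun c hc hL => ?_⟩
      rw [smul_add]
      refine Lat.plus (hg c hc hL) (lat_mono (mul_ne_zero ha' hc) ?_ (hg' c hc hL))
      rw [norm_mul, norm_mul]
      gcongr
  smul_mem' := by
    rintro b g ⟨a, ha, hg⟩
    by_cases hb : b = 0
    · exact ⟨1, one_ne_zero, fun c _ _ => by rw [hb, zero_smul, smul_zero]; exact Lat.zero⟩
    · refine ⟨b * a, mul_ne_zero hb ha, fun c hc hL => ?_⟩
      have h1 : (b * a * c)⁻¹ • b • g = (a * c)⁻¹ • g := by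
        rw [smul_smul]
        congr 1
        field_simp
      rw [h1]
      exact hg c hc hL

theorem control {χ : AddChar ℚ_[p] C} (h : Good χ) {f : (Fin d → ℚ_[p]) → C}
    (hf : f ∈ Sch p C d) (hf0 : f ≠ 0) :
    ∃ a : C, a ≠ 0 ∧ ∀ c : C, c ≠ 0 → Lat χ (c⁻¹ • f) → Lat χ ((a * c)⁻¹ • v0 p C d) := by
  have h1 : Stable χ (ctrM χ f) := by
    rintro y g ⟨a, ha, hg⟩
    refine ⟨a, ha, fun c hc hL => ?_⟩
    rw [← map_smul]
    exact Lat.E h y (hg c hc hL)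
  have h2 : f ∈ ctrM χ f := ⟨1, one_ne_zero, fun c _ hL => by rwa [one_mul]⟩
  exact irr h h1 h2 hf hf0 v0_mem

/-- The norm. -/
noncomputable def nrm (χ : AddChar ℚ_[p] C) (f : (Fin d → ℚ_[p]) → C) : ℝ :=
  sInf {r : ℝ | ∃ c : C, c ≠ 0 ∧ ‖c‖ = r ∧ Lat χ (c⁻¹ • f)}

theorem nrm_bdd (χ : AddChar ℚ_[p] C) (f : (Fin d → ℚ_[p]) → C) :
    BddBelow {r : ℝ | ∃ c : C, c ≠ 0 ∧ ‖c‖ = r ∧ Lat χ (c⁻¹ • f)} :=
  ⟨0, by rintro _ ⟨c, _, rfl, _⟩; exact norm_nonneg c⟩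

theorem nrm_nonneg (χ : AddChar ℚ_[p] C) (f : (Fin d → ℚ_[p]) → C) : 0 ≤ nrm χ f :=
  Real.sInf_nonneg (by rintro _ ⟨c, _, rfl, _⟩; exact norm_nonneg c)

theorem nrm_le {χ : AddChar ℚ_[p] C} {f : (Fin d → ℚ_[p]) → C} {c : C} (hc : c ≠ 0)
    (hL : Lat χ (c⁻¹ • f)) : nrm χ f ≤ ‖c‖ :=
  csInf_le (nrm_bdd χ f) ⟨c, hc, rfl, hL⟩

theorem nrm_lt {χ : AddChar ℚ_[p] C} (h : Good χ) {f : (Fin d → ℚ_[p]) → C}
    (hf : f ∈ Sch p C d) {r : ℝ} (hr : nrm χ f < r) : ∃ c : C, c ≠ 0 ∧ ‖c‖ < r ∧ Lat χ (c⁻¹ • f) := by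
  obtain ⟨c₀, hc₀, hL₀⟩ := absorb h hf
  obtain ⟨_, ⟨c, hc, rfl, hL⟩, hlt⟩ := (csInf_lt_iff (nrm_bdd χ f) ⟨_, c₀, hc₀, rfl, hL₀⟩).1 hr
  exact ⟨c, hc, hlt, hL⟩

theorem pC_ne (p : ℕ) [hp : Fact p.Prime] (C : Type*) [NormedField C] [NormedAlgebra ℚ_[p] C] :
    (p : C) ≠ 0 := by
  have h0 := norm_p p C
  intro h1
  rw [h1, norm_zero] at h0
  exact inv_ne_zero (p_pos p).ne' h0.symm

theorem nrm_zero (χ : AddChar ℚ_[p] C) : nrm χ (0 : (Fin d → ℚ_[p]) → C) = 0 := by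
  apply le_antisymm _ (nrm_nonneg _ _)
  apply le_of_forall_pos_le_add
  intro ε hε
  rw [zero_add]
  obtain ⟨n, hn⟩ := exists_pow_lt_of_lt_one hε
    (inv_lt_one_of_one_lt₀ (one_lt_p p))
  have h1 : nrm χ (0 : (Fin d → ℚ_[p]) → C) ≤ ‖(p : C) ^ n‖ :=
    nrm_le (pow_ne_zero _ (pC_ne p C)) (by rw [smul_zero]; exact Lat.zero)
  rw [norm_pow, norm_p p C] at h1
  exact h1.trans hn.le

theorem nrm_smul_le {χ : AddChar ℚ_[p] C} (h : Good χ) {f : (Fin d → ℚ_[p]) → C}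
    (hf : f ∈ Sch p C d) {a : C} (ha : a ≠ 0) : nrm χ (a • f) ≤ ‖a‖ * nrm χ f := by
  have hpos : 0 < ‖a‖ := norm_pos_iff.2 ha
  rw [mul_comm, ← div_le_iff₀ hpos]
  apply le_of_forall_gt_imp_ge_of_dense
  intro r hr
  obtain ⟨c, hc, hcr, hL⟩ := nrm_lt h hf hr
  have h1 : nrm χ (a • f) ≤ ‖a * c‖ := by
    apply nrm_le (mul_ne_zero ha hc)
    have : (a * c)⁻¹ • a • f = c⁻¹ • f := by
      rw [smul_smul]
      congr 1
      field_simp
    rw [this]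
    exact hL
  rw [norm_mul] at h1
  rw [div_le_iff₀ hpos, mul_comm]
  exact h1.trans (by gcongr)

theorem nrm_smul {χ : AddChar ℚ_[p] C} (h : Good χ) {f : (Fin d → ℚ_[p]) → C}
    (hf : f ∈ Sch p C d) (a : C) : nrm χ (a • f) = ‖a‖ * nrm χ f := by
  by_cases ha : a = 0
  · rw [ha, zero_smul, nrm_zero, norm_zero, zero_mul]
  · apply le_antisymm (nrm_smul_le h hf ha)
    have h1 := nrm_smul_le h (Submodule.smul_mem _ a hf) (inv_ne_zero ha)
    rw [smul_smul, inv_mul_cancel₀ ha, one_smul, norm_inv] at h1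
    have hpos : 0 < ‖a‖ := norm_pos_iff.2 ha
    rwa [← div_eq_inv_mul, le_div_iff₀ hpos, mul_comm] at h1

theorem nrm_add {χ : AddChar ℚ_[p] C} (h : Good χ) {f g : (Fin d → ℚ_[p]) → C}
    (hf : f ∈ Sch p C d) (hg : g ∈ Sch p C d) : nrm χ (f + g) ≤ max (nrm χ f) (nrm χ g) := by
  apply le_of_forall_gt_imp_ge_of_dense
  intro r hr
  obtain ⟨c, hc, hcr, hL⟩ := nrm_lt h hf (lt_of_le_of_lt (le_max_left _ _) hr)
  obtain ⟨c', hc', hcr', hL'⟩ := nrm_lt h hg (lt_of_le_of_lt (le_max_right _ _) hr)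
  rcases le_total ‖c‖ ‖c'‖ with h1 | h1
  · exact (nrm_le hc' (by rw [smul_add]; exact Lat.plus (lat_mono hc h1 hL) hL')).trans hcr'.le
  · exact (nrm_le hc (by rw [smul_add]; exact Lat.plus hL (lat_mono hc' h1 hL'))).trans hcr.le

theorem nrm_eq_zero {χ : AddChar ℚ_[p] C} (h : Good χ) {f : (Fin d → ℚ_[p]) → C}
    (hf : f ∈ Sch p C d) (h0 : nrm χ f = 0) : f = 0 := by
  by_contra hf0
  obtain ⟨a, ha, hctr⟩ := control h hf hf0
  have hpos : 0 < ‖a‖ := norm_pos_iff.2 ha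
  have hr : nrm χ f < (p : ℝ)⁻¹ / ‖a‖ := by
    rw [h0]
    exact div_pos (inv_pos.2 (p_pos p)) hpos
  obtain ⟨c, hc, hcr, hL⟩ := nrm_lt h hf hr
  have h1 := hctr c hc hL
  have h2 : ‖a * c‖ ≤ ‖(p : C)‖ := by
    rw [norm_mul, norm_p p C]
    rw [lt_div_iff₀ hpos] at hcr
    linarith
  exact not_lat h (lat_mono (mul_ne_zero ha hc) h2 h1)

theorem nrm_E_le {χ : AddChar ℚ_[p] C} (h : Good χ) (y : Fin d ⊕ Fin d → ℚ_[p])
    {f : (Fin d → ℚ_[p]) → C} (hf : f ∈ Sch p C d) : nrm χ (E χ y f) ≤ nrm χ f := by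
  apply le_of_forall_gt_imp_ge_of_dense
  intro r hr
  obtain ⟨c, hc, hcr, hL⟩ := nrm_lt h hf hr
  refine (nrm_le hc ?_).trans hcr.le
  rw [← map_smul]
  exact Lat.E h y hL

theorem nrm_E {χ : AddChar ℚ_[p] C} (h : Good χ) (y : Fin d ⊕ Fin d → ℚ_[p])
    {f : (Fin d → ℚ_[p]) → C} (hf : f ∈ Sch p C d) : nrm χ (E χ y f) = nrm χ f := by
  apply le_antisymm (nrm_E_le h y hf)
  have h1 := nrm_E_le h (-y) (E_mem h y hf)
  rw [E_comp, neg_add_cancel, E_zero, nrm_smul h hf, h.norm_eq, one_mul] at h1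
  exact h1

/-- The vectors `u_{i,k}` are small. -/
theorem nrm_u {χ : AddChar ℚ_[p] C} (i : Fin d ⊕ Fin d) (k : ℕ) :
    nrm χ (F χ i (nn p d (k + 1)) 0) ≤ ((p : ℝ)⁻¹) ^ (k + 1) := by
  have h1 : nrm χ (F χ i (nn p d (k + 1)) 0) ≤ ‖(p : C) ^ (k + 1)‖ := by
    apply nrm_le (pow_ne_zero _ (pC_ne p C))
    apply Lat.gen
    have := IsGen.step (χ := χ) (0 : Fin d ⊕ Fin d → ℚ_[p]) i k
    rwa [E_zero] at this
  rwa [norm_pow, norm_p p C] at h1

/-! ### Sums over fractions -/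

theorem sum_frac {M : Type*} [AddCommMonoid M] (g : ℚ_[p] → M) (j : ℕ)
    (hg : ∀ s : ℚ_[p], (p : ℝ) ^ j < ‖s‖ → g s = 0) (N : ℕ) :
    ∑ t ∈ range (p ^ (j + N)), g ((t : ℚ_[p]) / (p : ℚ_[p]) ^ (j + N)) =
      ∑ t ∈ range (p ^ j), g ((t : ℚ_[p]) / (p : ℚ_[p]) ^ j) := by
  induction N with
  | zero => simp
  | succ N ih =>
    rw [← ih, ← add_assoc, pow_succ', sum_range_mul]
    refine sum_congr rfl fun i _ => ?_
    rw [sum_eq_single 0]
    · congr 1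
      have := p_ne (p := p)
      rw [pow_succ]
      push_cast
      field_simp
      ring
    · intro r hr hr0
      apply hg
      rw [norm_div_pow]
      have h1 : ‖((p * i + r : ℕ) : ℚ_[p])‖ = 1 := by
        have h2 : ¬ ‖((p * i + r : ℕ) : ℚ_[p])‖ < 1 := by
          rw [Padic.norm_natCast_lt_one_iff]
          intro h3
          have h4 : p ∣ r := (Nat.dvd_add_right (dvd_mul_right p i)).1 h3
          exact absurd (Nat.le_of_dvd (Nat.pos_of_ne_zero hr0) h4) (not_le.2 (mem_range.1 hr))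
        have h3 : ‖((p * i + r : ℕ) : ℚ_[p])‖ ≤ 1 := by
          exact_mod_cast Padic.norm_int_le_one ((p * i + r : ℕ) : ℤ)
        exact le_antisymm h3 (not_lt.1 h2)
      rw [h1, one_mul]
      exact pow_lt_pow_right₀ (one_lt_p p) (by omega)
    · intro h0
      exact absurd (mem_range.2 hp.out.pos) h0

/-- Sums of translates of a function of bounded support: stabilization on a ball. -/
theorem stabilize {G : ℚ_[p] → (Fin d → ℚ_[p]) → C} {a : Fin d → ℚ_[p]} (ha : a ≠ 0) {R : ℝ}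
    (hG : ∀ s x, R < ‖x + s • a‖ → G s x = 0) :
    ∃ j : ℕ, ∀ x : Fin d → ℚ_[p],
      (∑ t ∈ range (p ^ j), G ((t : ℚ_[p]) / (p : ℚ_[p]) ^ j) x) ≠ 0 → ∀ N : ℕ,
      ∑ t ∈ range (p ^ (j + N)), G ((t : ℚ_[p]) / (p : ℚ_[p]) ^ (j + N)) x =
        ∑ t ∈ range (p ^ j), G ((t : ℚ_[p]) / (p : ℚ_[p]) ^ j) x := by
  have hapos : 0 < ‖a‖ := norm_pos_iff.2 ha
  obtain ⟨j, hj⟩ := pow_unbounded_of_one_lt (R / ‖a‖) (one_lt_p p)
  rw [div_lt_iff₀ hapos] at hj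
  refine ⟨j, fun x hx N => ?_⟩
  have hxn : ‖x‖ ≤ (p : ℝ) ^ j * ‖a‖ := by
    by_contra hcon
    push Not at hcon
    apply hx
    apply sum_eq_zero
    intro t _
    apply hG
    have h1 : ‖((t : ℚ_[p]) / (p : ℚ_[p]) ^ j) • a‖ < ‖x‖ := by
      rw [norm_smul]
      refine lt_of_le_of_lt ?_ hcon
      gcongr
      exact norm_nat_div_le j t
    have h2 : ‖x + ((t : ℚ_[p]) / (p : ℚ_[p]) ^ j) • a‖ = ‖x‖ := by
      rw [IsUltrametricDist.norm_add_eq_max_of_norm_ne_norm h1.ne', max_eq_left h1.le]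
    rw [h2]
    exact hj.trans hcon
  apply sum_frac (fun s => G s x) j
  intro s hs
  apply hG
  have h1 : ‖x‖ < ‖s • a‖ := by
    rw [norm_smul]
    refine lt_of_le_of_lt hxn ?_
    gcongr
  have h2 : ‖x + s • a‖ = ‖s • a‖ := by
    rw [IsUltrametricDist.norm_add_eq_max_of_norm_ne_norm h1.ne, max_eq_right h1.le]
  rw [h2, norm_smul]
  refine hj.trans ?_
  gcongr

/-- `u_N` is not zero. -/
theorem F_ne (χ : AddChar ℚ_[p] C) (i : Fin d ⊕ Fin d) (N : ℕ) : F χ i N 0 ≠ 0 := by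
  classical
  intro h
  have h1 := congrFun h 0
  rw [F, Finset.sum_apply] at h1
  have h2 : ∀ t ∈ range (p ^ N), (om χ N ^ (0 * t) • X χ i N t) 0 =
      ((if ∀ i', ‖(sg i ((t : ℚ_[p]) / (p : ℚ_[p]) ^ N) : Fin d ⊕ Fin d → ℚ_[p]) (Sum.inl i')‖ ≤ 1
        then 1 else 0 : ℕ) : C) := by
    intro t _
    rw [zero_mul, pow_zero, one_smul, X, E_apply, v0]
    simp only [Pi.zero_apply, mul_zero, sum_const_zero, AddChar.map_zero_eq_one, one_mul, zero_add]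
    split_ifs <;> simp
  rw [sum_congr rfl h2, ← Nat.cast_sum, Pi.zero_apply] at h1
  have hch : CharZero C := by
    have := charZero_of_injective_algebraMap (algebraMap ℚ_[p] C).injective
    exact this
  have h3 : (∑ t ∈ range (p ^ N),
      (if ∀ i', ‖(sg i ((t : ℚ_[p]) / (p : ℚ_[p]) ^ N) : Fin d ⊕ Fin d → ℚ_[p]) (Sum.inl i')‖ ≤ 1
        then 1 else 0 : ℕ)) = 0 := Nat.cast_eq_zero.1 h1
  rw [sum_eq_zero_iff] at h3
  have h4 := h3 0 (mem_range.2 (pow_pos hp.out.pos _))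
  rw [if_pos] at h4
  · exact one_ne_zero h4
  · intro i'
    simp [sg]

end Pool.Agent.Q247.HN
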