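import Pool.Agent.Q247.HN.Root

/-!
# The operators `E y` on functions `ℚ_p^d → C`
-/

set_option autoImplicit false
set_option linter.unusedSectionVars false

namespace Pool.Agent.Q247.HN

open Finset

variable {p : ℕ} [hp : Fact p.Prime] {C : Type*} [NormedField C] [NormedAlgebra ℚ_[p] C]
  [IsUltrametricDist C] {d : ℕ}

/-- The hypotheses on the additive character: it is trivial on `ℤ_p` and nontrivial at `1/p`. -/
structure Good (χ : AddChar ℚ_[p] C) : Prop where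
  triv : ∀ x : ℚ_[p], ‖x‖ ≤ 1 → χ x = 1
  nontriv : χ ((p : ℚ_[p])⁻¹) ≠ 1

/-- The operator `f ↦ χ(y_b · x) f(x + y_a)`. -/
noncomputable def E (χ : AddChar ℚ_[p] C) (y : Fin d ⊕ Fin d → ℚ_[p]) :
    ((Fin d → ℚ_[p]) → C) →ₗ[C] ((Fin d → ℚ_[p]) → C) where
  toFun f := fun x => χ (∑ i, y (Sum.inr i) * x i) * f (fun i => x i + y (Sum.inl i))
  map_add' f g := by
    funext x
    simp only [Pi.add_apply]
    ring
  map_smul' c f := by
    funext x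
    simp only [Pi.smul_apply, smul_eq_mul, RingHom.id_apply]
    ring

theorem E_apply (χ : AddChar ℚ_[p] C) (y : Fin d ⊕ Fin d → ℚ_[p]) (f : (Fin d → ℚ_[p]) → C)
    (x : Fin d → ℚ_[p]) :
    E χ y f x = χ (∑ i, y (Sum.inr i) * x i) * f (fun i => x i + y (Sum.inl i)) := rfl

/-- The bilinear form `y_a · z_b`. -/
noncomputable def B (y z : Fin d ⊕ Fin d → ℚ_[p]) : ℚ_[p] := ∑ i, y (Sum.inl i) * z (Sum.inr i)

theorem E_comp (χ : AddChar ℚ_[p] C) (y z : Fin d ⊕ Fin d → ℚ_[p]) (f : (Fin d → ℚ_[p]) → C) :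
    E χ y (E χ z f) = χ (B y z) • E χ (y + z) f := by
  funext x
  simp only [E_apply, Pi.smul_apply, smul_eq_mul, B, Pi.add_apply]
  have h1 : ∑ i, z (Sum.inr i) * (x i + y (Sum.inl i)) =
      ∑ i, z (Sum.inr i) * x i + ∑ i, y (Sum.inl i) * z (Sum.inr i) := by
    rw [← sum_add_distrib]
    exact sum_congr rfl fun i _ => by ring
  have h2 : ∑ i, (y (Sum.inr i) + z (Sum.inr i)) * x i =
      ∑ i, y (Sum.inr i) * x i + ∑ i, z (Sum.inr i) * x i := by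
    rw [← sum_add_distrib]
    exact sum_congr rfl fun i _ => by ring
  rw [h1, h2, AddChar.map_add_eq_mul, AddChar.map_add_eq_mul]
  have h3 : (fun i => x i + y (Sum.inl i) + z (Sum.inl i)) =
      fun i => x i + (y (Sum.inl i) + z (Sum.inl i)) := by
    funext i
    ring
  rw [h3]
  ring

theorem χ_ne (χ : AddChar ℚ_[p] C) (x : ℚ_[p]) : χ x ≠ 0 := by
  intro h
  have h1 : χ x * χ (-x) = 1 := by
    rw [← AddChar.map_add_eq_mul, add_neg_cancel, AddChar.map_zero_eq_one]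
  rw [h, zero_mul] at h1
  exact zero_ne_one h1

theorem E_zero (χ : AddChar ℚ_[p] C) (f : (Fin d → ℚ_[p]) → C) :
    E χ (0 : Fin d ⊕ Fin d → ℚ_[p]) f = f := by
  funext x
  simp [E_apply]

theorem E_add (χ : AddChar ℚ_[p] C) (y z : Fin d ⊕ Fin d → ℚ_[p]) (f : (Fin d → ℚ_[p]) → C) :
    E χ (y + z) f = χ (-B y z) • E χ y (E χ z f) := by
  rw [E_comp, smul_smul, ← AddChar.map_add_eq_mul, neg_add_cancel, AddChar.map_zero_eq_one,
    one_smul]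

theorem E_comm (χ : AddChar ℚ_[p] C) (y z : Fin d ⊕ Fin d → ℚ_[p]) (f : (Fin d → ℚ_[p]) → C) :
    E χ y (E χ z f) = χ (B y z - B z y) • E χ z (E χ y f) := by
  rw [E_comp, E_comp, smul_smul, ← AddChar.map_add_eq_mul, add_comm z y]
  congr 2
  ring

omit [IsUltrametricDist C] in
theorem exists_pow_le (x : ℚ_[p]) : ∃ n : ℕ, ‖x‖ ≤ (p : ℝ) ^ n := by
  obtain ⟨n, hn⟩ := pow_unbounded_of_one_lt ‖x‖ (one_lt_p p)
  exact ⟨n, hn.le⟩

theorem norm_pow_p (n : ℕ) : ‖(p : ℚ_[p]) ^ n‖ = ((p : ℝ) ^ n)⁻¹ := by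
  rw [norm_pow, Padic.norm_p, inv_pow]

theorem norm_div_pow (x : ℚ_[p]) (n : ℕ) : ‖x / (p : ℚ_[p]) ^ n‖ = ‖x‖ * (p : ℝ) ^ n := by
  rw [norm_div, norm_pow_p, div_inv_eq_mul]

theorem Good.norm_eq {χ : AddChar ℚ_[p] C} (h : Good χ) (x : ℚ_[p]) : ‖χ x‖ = 1 := by
  obtain ⟨n, hn⟩ := exists_pow_le x
  have h1 : (χ x) ^ (p ^ n) = 1 := by
    rw [← AddChar.map_nsmul_eq_pow]
    apply h.triv
    rw [nsmul_eq_mul, norm_mul, Nat.cast_pow, norm_pow_p]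
    have : (0 : ℝ) < (p : ℝ) ^ n := pow_pos (p_pos p) _
    rw [inv_mul_le_iff₀ this, mul_one]
    exact hn
  exact norm_root (pow_ne_zero _ hp.out.ne_zero) h1

/-- One-variable reduction. -/
theorem red1 (n : ℕ) (x : ℚ_[p]) (hx : ‖x‖ ≤ (p : ℝ) ^ n) :
    ∃ q < p ^ n, ‖x - (q : ℚ_[p]) / (p : ℚ_[p]) ^ n‖ ≤ 1 := by
  have hpn : (0 : ℝ) < (p : ℝ) ^ n := pow_pos (p_pos p) _
  have hp0 : (p : ℚ_[p]) ^ n ≠ 0 := pow_ne_zero _ (by exact_mod_cast hp.out.ne_zero)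
  have h1 : ‖x * (p : ℚ_[p]) ^ n‖ ≤ 1 := by
    rw [norm_mul, norm_pow_p, mul_inv_le_iff₀ hpn, one_mul]
    exact hx
  set z : ℤ_[p] := ⟨x * (p : ℚ_[p]) ^ n, h1⟩ with hz
  refine ⟨z.appr n, z.appr_lt n, ?_⟩
  have h2 := (PadicInt.norm_le_pow_iff_mem_span_pow (z - ((z.appr n : ℕ) : ℤ_[p])) n).2 (z.appr_spec n)
  have h3 : x - ((z.appr n : ℕ) : ℚ_[p]) / (p : ℚ_[p]) ^ n =
      ((z - ((z.appr n : ℕ) : ℤ_[p]) : ℤ_[p]) : ℚ_[p]) / (p : ℚ_[p]) ^ n := by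
    push_cast
    rw [hz]
    field_simp
  rw [h3, norm_div_pow]
  rw [zpow_neg, zpow_natCast] at h2
  calc _ ≤ ((p : ℝ) ^ n)⁻¹ * (p : ℝ) ^ n := by
        gcongr
        exact h2
    _ = 1 := inv_mul_cancel₀ hpn.ne'

/-- The characteristic function of `ℤ_p^d`. -/
noncomputable def v0 (p : ℕ) [Fact p.Prime] (C : Type*) [NormedField C] (d : ℕ) :
    (Fin d → ℚ_[p]) → C := fun x => open Classical in if ∀ i, ‖x i‖ ≤ 1 then 1 else 0

theorem qadd_le {x y : ℚ_[p]} {r : ℝ} (hx : ‖x‖ ≤ r) (hy : ‖y‖ ≤ r) : ‖x + y‖ ≤ r :=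
  (IsUltrametricDist.norm_add_le_max x y).trans (max_le hx hy)

theorem qsub_le {x y : ℚ_[p]} {r : ℝ} (hx : ‖x‖ ≤ r) (hy : ‖y‖ ≤ r) : ‖x - y‖ ≤ r :=
  (nsub_le x y).trans (max_le hx hy)

theorem qsum_le {ι : Type*} (s : Finset ι) {f : ι → ℚ_[p]} {r : ℝ} (hr : 0 ≤ r)
    (h : ∀ i ∈ s, ‖f i‖ ≤ r) : ‖∑ i ∈ s, f i‖ ≤ r :=
  IsUltrametricDist.norm_sum_le_of_forall_le_of_nonneg hr h

theorem E_lam {χ : AddChar ℚ_[p] C} (h : Good χ) {l : Fin d ⊕ Fin d → ℚ_[p]}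
    (hl : ∀ j, ‖l j‖ ≤ 1) : E χ l (v0 p C d) = v0 p C d := by
  funext x
  rw [E_apply, v0, v0]
  have h1 : (∀ i, ‖x i + l (Sum.inl i)‖ ≤ 1) ↔ ∀ i, ‖x i‖ ≤ 1 := by
    refine forall_congr' fun i => ⟨fun hx => ?_, fun hx => qadd_le hx (hl _)⟩
    have := qsub_le hx (hl (Sum.inl i))
    simpa using this
  by_cases hx : ∀ i, ‖x i‖ ≤ 1
  · rw [if_pos hx, if_pos (h1.2 hx), mul_one]
    apply h.triv
    apply qsum_le _ zero_le_one
    intro i _
    rw [norm_mul]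
    exact mul_le_one₀ (hl _) (norm_nonneg _) (hx i)
  · rw [if_neg hx, if_neg (fun h' => hx (h1.1 h')), mul_zero]

/-- The vectors `e_q`. -/
noncomputable def yq (n : ℕ) (q : Fin d ⊕ Fin d → Fin (p ^ n)) : Fin d ⊕ Fin d → ℚ_[p] :=
  fun j => ((q j : ℕ) : ℚ_[p]) / (p : ℚ_[p]) ^ n

noncomputable def e (χ : AddChar ℚ_[p] C) (n : ℕ) (q : Fin d ⊕ Fin d → Fin (p ^ n)) :
    (Fin d → ℚ_[p]) → C := E χ (yq n q) (v0 p C d)

theorem norm_nat_div_le (n : ℕ) (q : ℕ) : ‖(q : ℚ_[p]) / (p : ℚ_[p]) ^ n‖ ≤ (p : ℝ) ^ n := by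
  rw [norm_div_pow]
  have h : ‖(q : ℚ_[p])‖ ≤ 1 := by exact_mod_cast Padic.norm_int_le_one (q : ℤ)
  have : (0 : ℝ) ≤ (p : ℝ) ^ n := by positivity
  calc _ ≤ 1 * (p : ℝ) ^ n := by gcongr
    _ = _ := one_mul _

/-- Reduction of a vector. -/
theorem redW (n : ℕ) (y : Fin d ⊕ Fin d → ℚ_[p]) (hy : ∀ j, ‖y j‖ ≤ (p : ℝ) ^ n) :
    ∃ q : Fin d ⊕ Fin d → Fin (p ^ n), ∀ j, ‖(y - yq n q) j‖ ≤ 1 := by
  choose q hq hq' using fun j => red1 n (y j) (hy j)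
  exact ⟨fun j => ⟨q j, hq j⟩, fun j => hq' j⟩

theorem E_red {χ : AddChar ℚ_[p] C} (h : Good χ) (n : ℕ) (y : Fin d ⊕ Fin d → ℚ_[p])
    (hy : ∀ j, ‖y j‖ ≤ (p : ℝ) ^ n) :
    ∃ (q : Fin d ⊕ Fin d → Fin (p ^ n)) (c : C), ‖c‖ = 1 ∧ E χ y (v0 p C d) = c • e χ n q := by
  obtain ⟨q, hq⟩ := redW n y hy
  refine ⟨q, χ (-B (yq n q) (y - yq n q)), h.norm_eq _, ?_⟩
  have h1 : y = yq n q + (y - yq n q) := by ring
  conv_lhs => rw [h1]
  rw [E_add, E_lam h hq, e]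

/-- `ω N = χ(1/p^N)`. -/
noncomputable def om (χ : AddChar ℚ_[p] C) (N : ℕ) : C := χ (1 / (p : ℚ_[p]) ^ N)

theorem om_pow (χ : AddChar ℚ_[p] C) (N : ℕ) (t : ℕ) :
    om χ N ^ t = χ ((t : ℚ_[p]) / (p : ℚ_[p]) ^ N) := by
  rw [om, ← AddChar.map_nsmul_eq_pow, nsmul_eq_mul]
  congr 1
  ring

theorem p_ne : (p : ℚ_[p]) ≠ 0 := by exact_mod_cast hp.out.ne_zero

theorem om_root {χ : AddChar ℚ_[p] C} (h : Good χ) (N : ℕ) : om χ N ^ (p ^ N) = 1 := by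
  rw [om_pow]
  push_cast
  rw [div_self (pow_ne_zero _ p_ne)]
  exact h.triv 1 (by simp)

/-- `ω N` is a primitive root. -/
theorem om_prim {χ : AddChar ℚ_[p] C} (h : Good χ) (N : ℕ) : IsPrimitiveRoot (om χ N) (p ^ N) := by
  cases N with
  | zero =>
    have := om_root h 0
    rw [pow_zero, pow_one] at this
    rw [this, pow_zero]
    exact IsPrimitiveRoot.one
  | succ N =>
    have h1 := om_root h (N + 1)
    rw [IsPrimitiveRoot.iff_orderOf]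
    apply orderOf_eq_prime_pow
    · rw [om_pow]
      push_cast
      have : (p : ℚ_[p]) ^ N / (p : ℚ_[p]) ^ (N + 1) = (p : ℚ_[p])⁻¹ := by
        have := p_ne (p := p)
        rw [pow_succ]
        field_simp
      rw [this]
      exact h.nontriv
    · exact h1

/-- Distinct values. -/
theorem om_inj {χ : AddChar ℚ_[p] C} (h : Good χ) (n : ℕ) {a b : ℕ} (ha : a < p ^ n) (hb : b < p ^ n)
    (hab : χ ((a : ℚ_[p]) / (p : ℚ_[p]) ^ n) = χ ((b : ℚ_[p]) / (p : ℚ_[p]) ^ n)) : a = b := by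
  rw [← om_pow, ← om_pow] at hab
  exact (om_prim h n).pow_inj ha hb hab

/-- Integrality of differences. -/
theorem int_iff (n : ℕ) {a b : ℕ} (ha : a < p ^ n) (hb : b < p ^ n) (z : ℤ)
    (h : ‖(-((a : ℚ_[p]) / (p : ℚ_[p]) ^ n) + z) + (b : ℚ_[p]) / (p : ℚ_[p]) ^ n‖ ≤ 1) : b = a := by
  have h1 : ‖((b : ℚ_[p]) - a) / (p : ℚ_[p]) ^ n‖ ≤ 1 := by
    have h2 : ((b : ℚ_[p]) - a) / (p : ℚ_[p]) ^ n =
      ((-((a : ℚ_[p]) / (p : ℚ_[p]) ^ n) + z) + (b : ℚ_[p]) / (p : ℚ_[p]) ^ n) - z := by ring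
    rw [h2]
    exact qsub_le h (Padic.norm_int_le_one z)
  have hpn : (0 : ℝ) < (p : ℝ) ^ n := pow_pos (p_pos p) _
  rw [norm_div_pow, ← le_div_iff₀ hpn, one_div] at h1
  have h3 : ‖(((b : ℤ) - (a : ℤ) : ℤ) : ℚ_[p])‖ ≤ (p : ℝ) ^ (-(n : ℤ)) := by
    rw [zpow_neg, zpow_natCast]
    push_cast
    exact h1
  rw [Padic.norm_int_le_pow_iff_dvd] at h3
  have h4 : (a : ℤ) ≡ b [ZMOD (p ^ n : ℕ)] := by
    rw [Int.modEq_iff_dvd]
    exact_mod_cast h3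
  have h5 := (Int.natCast_modEq_iff.1 h4)
  exact (Nat.ModEq.eq_of_lt_of_lt h5 ha hb).symm

/-- The vectors `e_q` are linearly independent. -/
theorem e_indep {χ : AddChar ℚ_[p] C} (h : Good χ) (n : ℕ) :
    LinearIndependent C (e (d := d) χ n) := by
  classical
  rw [Fintype.linearIndependent_iff]
  intro g hg q
  -- characters of `ℤ^d`
  let ch : (Fin d → Fin (p ^ n)) → AddChar (Fin d → ℤ) C := fun b =>
    { toFun := fun z => χ (∑ i, ((b i : ℕ) : ℚ_[p]) / (p : ℚ_[p]) ^ n * (z i : ℚ_[p]))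
      map_zero_eq_one' := by simp
      map_add_eq_mul' := fun z z' => by
        rw [← AddChar.map_add_eq_mul, ← sum_add_distrib]
        congr 1
        refine sum_congr rfl fun i _ => ?_
        simp only [Pi.add_apply]
        push_cast
        ring }
  have hch : ∀ b z, ch b z = χ (∑ i, ((b i : ℕ) : ℚ_[p]) / (p : ℚ_[p]) ^ n * (z i : ℚ_[p])) :=
    fun _ _ => rfl
  have hinj : Function.Injective ch := by
    intro b b' hbb
    funext i
    have h1 := DFunLike.congr_fun hbb (Pi.single i 1)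
    rw [hch, hch] at h1
    have h2 : ∀ b : Fin d → Fin (p ^ n), ∑ i', ((b i' : ℕ) : ℚ_[p]) / (p : ℚ_[p]) ^ n *
        (((Pi.single i (1 : ℤ) : Fin d → ℤ) i' : ℤ) : ℚ_[p]) =
        ((b i : ℕ) : ℚ_[p]) / (p : ℚ_[p]) ^ n := by
      intro b
      rw [sum_eq_single i]
      · simp
      · intro j _ hj
        simp [Pi.single_eq_of_ne hj]
      · simp
    rw [h2, h2] at h1
    exact Fin.ext (om_inj h n (b i).2 (b' i).2 h1)
  have hind : LinearIndependent C (fun b : Fin d → Fin (p ^ n) => (ch b : (Fin d → ℤ) → C)) :=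
    (linearIndependent_monoidHom (Multiplicative (Fin d → ℤ)) C).comp
      (fun b => (ch b).toMonoidHom) (fun b b' hbb => hinj (by
        ext z
        exact DFunLike.congr_fun hbb (Multiplicative.ofAdd z)))
  rw [Fintype.linearIndependent_iff] at hind
  -- evaluate
  set a : Fin d → Fin (p ^ n) := fun i => q (Sum.inl i) with ha
  have hval : ∀ z : Fin d → ℤ, ∑ b : Fin d → Fin (p ^ n),
      (g (Sum.elim a b) * χ (∑ i, ((b i : ℕ) : ℚ_[p]) / (p : ℚ_[p]) ^ n *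
        (-(((a i : ℕ) : ℚ_[p]) / (p : ℚ_[p]) ^ n)))) * ch b z = 0 := by
    intro z
    have h1 := congrFun hg (fun i => -(((a i : ℕ) : ℚ_[p]) / (p : ℚ_[p]) ^ n) + (z i : ℚ_[p]))
    rw [Finset.sum_apply] at h1
    simp only [Pi.smul_apply, smul_eq_mul, Pi.zero_apply] at h1
    rw [← h1]
    have h2 : ∀ q' : Fin d ⊕ Fin d → Fin (p ^ n), (¬ ∀ i, q' (Sum.inl i) = a i) →
        g q' * e χ n q' (fun i => -(((a i : ℕ) : ℚ_[p]) / (p : ℚ_[p]) ^ n) + (z i : ℚ_[p])) = 0 := by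
      intro q' hq'
      rw [e, E_apply, v0, if_neg, mul_zero, mul_zero]
      intro hh
      apply hq'
      intro i
      exact Fin.ext (int_iff n (a i).2 (q' (Sum.inl i)).2 (z i) (hh i))
    have h3 : ∀ b : Fin d → Fin (p ^ n), (g (Sum.elim a b) *
        χ (∑ i, ((b i : ℕ) : ℚ_[p]) / (p : ℚ_[p]) ^ n *
          (-(((a i : ℕ) : ℚ_[p]) / (p : ℚ_[p]) ^ n)))) * ch b z =
        g (Sum.elim a b) * e χ n (Sum.elim a b)
          (fun i => -(((a i : ℕ) : ℚ_[p]) / (p : ℚ_[p]) ^ n) + (z i : ℚ_[p])) := by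
      intro b
      rw [e, E_apply, v0, if_pos, mul_one, hch, mul_assoc, ← AddChar.map_add_eq_mul,
        ← sum_add_distrib]
      · congr 2
        refine sum_congr rfl fun i _ => ?_
        simp only [yq, Sum.elim_inr]
        ring
      · intro i
        simp only [yq, Sum.elim_inl]
        have : -(((a i : ℕ) : ℚ_[p]) / (p : ℚ_[p]) ^ n) + (z i : ℚ_[p]) +
            ((a i : ℕ) : ℚ_[p]) / (p : ℚ_[p]) ^ n = (z i : ℚ_[p]) := by ring
        rw [this]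
        exact Padic.norm_int_le_one _
    rw [sum_congr rfl fun b _ => h3 b]
    symm
    rw [← sum_subset (s₁ := univ.image fun b : Fin d → Fin (p ^ n) =>
      (Sum.elim a b : Fin d ⊕ Fin d → Fin (p ^ n))) (subset_univ _)]
    · rw [sum_image]
      intro b _ b' _ hbb
      funext i
      have := congrFun hbb (Sum.inr i)
      simpa using this
    · intro q' _ hq'
      apply h2
      intro hh
      apply hq'
      rw [mem_image]
      refine ⟨fun i => q' (Sum.inr i), mem_univ _, ?_⟩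
      funext j
      rcases j with j | j
      · simp [hh j]
      · simp
  have h4 := hind (fun b => g (Sum.elim a b) * χ (∑ i, ((b i : ℕ) : ℚ_[p]) / (p : ℚ_[p]) ^ n *
        (-(((a i : ℕ) : ℚ_[p]) / (p : ℚ_[p]) ^ n)))) (by
    funext z
    rw [Finset.sum_apply]
    exact hval z) (fun i => q (Sum.inr i))
  have h5 := (mul_eq_zero.1 h4).resolve_right (χ_ne χ _)
  have h6 : Sum.elim a (fun i => q (Sum.inr i)) = q := by
    funext j
    rcases j with j | j <;> simp [ha]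
  rwa [h6] at h5

end Pool.Agent.Q247.HN
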