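import Mathlib

/-!
# Roots of unity of `p`-power order and approximation by polynomials of small degree

In a nonarchimedean normed field `C` over `ℚ_p`: if `z^(p^(j+1)) = 1` then
`‖z - 1‖ ≤ θ j = p^(-1/((p-1)p^j))`; products of `p^M` consecutive differences; and the function
`z ↦ z^a` on the `p^N`-th roots of unity is, up to `p^(-s)`, a polynomial of degree `< p^(s p^m)`,
for `N = s p^m + m`.
-/

set_option autoImplicit false
set_option linter.unusedSectionVars false

namespace Pool.Agent.Q247.HN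

open Finset

variable {p : ℕ} [hp : Fact p.Prime] {C : Type*} [NormedField C] [NormedAlgebra ℚ_[p] C]
  [IsUltrametricDist C]

theorem norm_p (p : ℕ) [hp : Fact p.Prime] (C : Type*) [NormedField C] [NormedAlgebra ℚ_[p] C] :
    ‖(p : C)‖ = (p : ℝ)⁻¹ := by
  have h := norm_algebraMap' C (p : ℚ_[p])
  rw [map_natCast] at h
  rw [h]
  exact Padic.norm_p

theorem p_pos (p : ℕ) [hp : Fact p.Prime] : (0 : ℝ) < p := by
  exact_mod_cast hp.out.pos

theorem one_lt_p (p : ℕ) [hp : Fact p.Prime] : (1 : ℝ) < p := by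
  exact_mod_cast hp.out.one_lt

theorem norm_natCast_le (p : ℕ) [hp : Fact p.Prime] (C : Type*) [NormedField C]
    [NormedAlgebra ℚ_[p] C] (n : ℕ) : ‖(n : C)‖ ≤ 1 := by
  have h := norm_algebraMap' C (n : ℚ_[p])
  rw [map_natCast] at h
  rw [h]
  exact_mod_cast Padic.norm_int_le_one (n : ℤ)

theorem nsub_le {C : Type*} [NormedField C] [IsUltrametricDist C] (a b : C) :
    ‖a - b‖ ≤ max ‖a‖ ‖b‖ := by
  rw [sub_eq_add_neg, ← norm_neg b]
  exact IsUltrametricDist.norm_add_le_max _ _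

/-- The ring of integers. -/
def O (C : Type*) [NormedField C] [IsUltrametricDist C] : Subring C where
  carrier := {x | ‖x‖ ≤ 1}
  zero_mem' := by simp
  one_mem' := by simp
  add_mem' := fun {a b} ha hb => (IsUltrametricDist.norm_add_le_max a b).trans (max_le ha hb)
  neg_mem' := fun {a} ha => by
    simp only [Set.mem_ofPred_eq, norm_neg] at *
    exact ha
  mul_mem' := fun {a b} ha hb => by
    simp only [Set.mem_ofPred_eq, norm_mul] at *
    exact mul_le_one₀ ha (norm_nonneg _) hb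

theorem mem_O {x : C} : x ∈ O C ↔ ‖x‖ ≤ 1 := Iff.rfl

theorem norm_root {z : C} {n : ℕ} (hn : n ≠ 0) (h : z ^ n = 1) : ‖z‖ = 1 := by
  have h1 : ‖z‖ ^ n = 1 := by rw [← norm_pow, h, norm_one]
  exact (pow_eq_one_iff_of_nonneg (norm_nonneg _) hn).1 h1

/-- `θ j = p^(-1/((p-1) p^j))`. -/
noncomputable def θ (p : ℕ) (j : ℕ) : ℝ := (p : ℝ) ^ (-(1 / (((p : ℝ) - 1) * (p : ℝ) ^ j)))

theorem θ_pos (p : ℕ) [hp : Fact p.Prime] (j : ℕ) : 0 < θ p j := Real.rpow_pos_of_pos (p_pos p) _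

theorem θ_pow (p : ℕ) [hp : Fact p.Prime] (j : ℕ) : θ p j ^ ((p - 1) * p ^ j) = (p : ℝ)⁻¹ := by
  have h1 := one_lt_p p
  have h2 : ((p : ℝ) - 1) ≠ 0 := by linarith
  have h3 : ((p : ℝ)) ^ j ≠ 0 := by positivity
  rw [θ, ← Real.rpow_natCast, ← Real.rpow_mul (p_pos p).le, ← Real.rpow_neg_one]
  congr 1
  rw [Nat.cast_mul, Nat.cast_pow, Nat.cast_sub hp.out.one_le]
  push_cast
  field_simp

theorem θ_succ (p : ℕ) [hp : Fact p.Prime] (j : ℕ) : θ p (j + 1) ^ p = θ p j := by
  have h1 := one_lt_p p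
  have h2 : ((p : ℝ) - 1) ≠ 0 := by linarith
  have h3 : ((p : ℝ)) ^ j ≠ 0 := by positivity
  rw [θ, ← Real.rpow_natCast, ← Real.rpow_mul (p_pos p).le, θ]
  congr 1
  rw [pow_succ]
  field_simp

theorem θ_le_one (p : ℕ) [hp : Fact p.Prime] (j : ℕ) : θ p j ≤ 1 := by
  have h1 := one_lt_p p
  apply Real.rpow_le_one_of_one_le_of_nonpos h1.le
  have : 0 ≤ 1 / (((p : ℝ) - 1) * (p : ℝ) ^ j) := by
    apply div_nonneg zero_le_one
    apply mul_nonneg (by linarith) (by positivity)
  linarith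

theorem θ_mono (p : ℕ) [hp : Fact p.Prime] (j : ℕ) : θ p 0 ≤ θ p j := by
  induction j with
  | zero => exact le_rfl
  | succ j ih =>
    refine ih.trans ?_
    rw [← θ_succ p j]
    calc θ p (j + 1) ^ p ≤ θ p (j + 1) ^ 1 :=
          pow_le_pow_of_le_one (θ_pos p _).le (θ_le_one p _) hp.out.one_le
      _ = _ := pow_one _

/-- The basic inequality. -/
theorem basic {z : C} (hz : ‖z‖ ≤ 1) : ‖z - 1‖ ^ p ≤ max ‖z ^ p - 1‖ ((p : ℝ)⁻¹ * ‖z - 1‖) := by
  have hy : ‖z - 1‖ ≤ 1 := (nsub_le z 1).trans (max_le hz (by simp))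
  obtain ⟨r, hr⟩ := exists_add_pow_prime_eq hp.out (⟨1, by simp [O]⟩ : O C) ⟨z - 1, hy⟩
  have h1 := congrArg Subtype.val hr
  push_cast at h1
  have h2 : (z - 1) ^ p = (z ^ p - 1) - (p : C) * ((z - 1) * (r : C)) := by
    have h3 : (1 : C) + (z - 1) = z := by ring
    rw [h3] at h1
    rw [h1]
    ring
  rw [← norm_pow, h2]
  refine (nsub_le _ _).trans (max_le_max le_rfl ?_)
  rw [norm_mul, norm_p p C, norm_mul]
  have h4 : ‖(r : C)‖ ≤ 1 := r.2
  have h5 : 0 ≤ (p : ℝ)⁻¹ := inv_nonneg.2 (p_pos p).le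
  calc (p : ℝ)⁻¹ * (‖z - 1‖ * ‖(r : C)‖) ≤ (p : ℝ)⁻¹ * (‖z - 1‖ * 1) := by gcongr
    _ = _ := by ring

theorem le_θ (p : ℕ) [hp : Fact p.Prime] {C : Type*} [NormedField C] [NormedAlgebra ℚ_[p] C]
    [IsUltrametricDist C] (j : ℕ) : ∀ {z : C}, z ^ (p ^ (j + 1)) = 1 → ‖z - 1‖ ≤ θ p j := by
  have hp0 : p ≠ 0 := hp.out.ne_zero
  have key : ∀ j : ℕ, ∀ {z : C}, ‖z‖ ≤ 1 → (p : ℝ)⁻¹ * ‖z - 1‖ ≥ ‖z - 1‖ ^ p → ‖z - 1‖ ≤ θ p j := by
    intro j z hz h
    by_cases h0 : ‖z - 1‖ = 0
    · rw [h0]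
      exact (θ_pos p j).le
    · have h1 : 0 < ‖z - 1‖ := lt_of_le_of_ne (norm_nonneg _) (Ne.symm h0)
      have h2 : ‖z - 1‖ ^ (p - 1) ≤ (p : ℝ)⁻¹ := by
        have h3 : ‖z - 1‖ ^ p = ‖z - 1‖ ^ (p - 1) * ‖z - 1‖ := by
          rw [← pow_succ, Nat.sub_add_cancel hp.out.one_le]
        rw [h3] at h
        exact le_of_mul_le_mul_right h h1
      have h4 : θ p 0 ^ (p - 1) = (p : ℝ)⁻¹ := by
        have := θ_pow p 0
        simpa using this
      rw [← h4] at h2
      have h5 : ‖z - 1‖ ≤ θ p 0 :=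
        le_of_pow_le_pow_left₀ (Nat.sub_ne_zero_of_lt hp.out.one_lt) (θ_pos p 0).le h2
      exact h5.trans (θ_mono p j)
  induction j with
  | zero =>
    intro z hz
    rw [zero_add, pow_one] at hz
    have hz1 := norm_root hp0 hz
    have h := basic (p := p) hz1.le
    rw [hz, sub_self, norm_zero, max_eq_right (by have := p_pos p; positivity)] at h
    exact key 0 hz1.le h
  | succ j ih =>
    intro z hz
    have hz1 := norm_root (pow_ne_zero _ hp0) hz
    have h := basic (p := p) hz1.le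
    rcases le_max_iff.1 h with h | h
    · have h2 : (z ^ p) ^ (p ^ (j + 1)) = 1 := by
        rw [← pow_mul, ← hz]
        congr 1
        ring
      have h3 := h.trans (ih h2)
      rw [← θ_succ p j] at h3
      exact le_of_pow_le_pow_left₀ hp0 (θ_pos p _).le h3
    · exact key _ hz1.le h

theorem prod_range_mul {M : Type*} [CommMonoid M] (a b : ℕ) (f : ℕ → M) :
    ∏ t ∈ range (a * b), f t = ∏ i ∈ range b, ∏ j ∈ range a, f (a * i + j) := by
  induction b with
  | zero => simp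
  | succ b ih => rw [Nat.mul_succ, prod_range_add, ih, prod_range_succ]

theorem sum_range_mul {M : Type*} [AddCommMonoid M] (a b : ℕ) (f : ℕ → M) :
    ∑ t ∈ range (a * b), f t = ∑ i ∈ range b, ∑ j ∈ range a, f (a * i + j) := by
  induction b with
  | zero => simp
  | succ b ih => rw [Nat.mul_succ, sum_range_add, ih, sum_range_succ]

/-- The exponents. -/
def ee (p : ℕ) : ℕ → ℕ
  | 0 => 0
  | M + 1 => (p - 1) * p ^ M + p * ee p M

theorem ee_eq (p M : ℕ) : p * ee p M = M * ((p - 1) * p ^ M) := by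
  induction M with
  | zero => simp [ee]
  | succ M ih =>
    rw [ee, mul_add, ih]
    ring

/-- Products of consecutive differences. -/
theorem prod_le (p : ℕ) [hp : Fact p.Prime] {C : Type*} [NormedField C] [NormedAlgebra ℚ_[p] C]
    [IsUltrametricDist C] (m : ℕ) (M : ℕ) : ∀ (ω : C), ω ^ (p ^ (M + m + 1)) = 1 → ∀ a : ℕ,
    ∏ i ∈ range (p ^ M), ‖ω ^ (a + i) - 1‖ ≤ θ p (M + m) ^ ee p M := by
  induction M with
  | zero =>
    intro ω hω a
    have h1 := norm_root (pow_ne_zero _ hp.out.ne_zero) hω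
    simp only [pow_zero, range_one, prod_singleton, ee]
    refine (nsub_le _ _).trans (max_le ?_ (by simp))
    rw [norm_pow, h1, one_pow]
  | succ M ih =>
    intro ω hω a
    have hn := norm_root (pow_ne_zero _ hp.out.ne_zero) hω
    have hroot : ∀ t : ℕ, ‖ω ^ t - 1‖ ≤ θ p (M + 1 + m) := by
      intro t
      apply le_θ p
      rw [← pow_mul, mul_comm, pow_mul, hω, one_pow]
    -- the residue with `p ∣ a + j`
    obtain ⟨j₀, hj₀, a', ha'⟩ : ∃ j₀ ∈ range p, ∃ a', a + j₀ = p * a' := by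
      have hpp := hp.out.pos
      refine ⟨(p - a % p) % p, mem_range.2 (Nat.mod_lt _ hpp), ?_⟩
      have : p ∣ a + (p - a % p) % p := by
        have h1 : (a + (p - a % p) % p) % p = 0 := by
          rw [Nat.add_mod, Nat.mod_mod, ← Nat.add_mod]
          have h2 : a + (p - a % p) = p * (a / p) + p := by
            have := Nat.div_add_mod a p
            have := Nat.mod_lt a hpp
            omega
          rw [h2]
          simp
        exact Nat.dvd_of_mod_eq_zero h1
      obtain ⟨a', h⟩ := this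
      exact ⟨a', h⟩
    rw [pow_succ', prod_range_mul, prod_comm]
    have h1 : ∏ y ∈ range p, ∏ x ∈ range (p ^ M), ‖ω ^ (a + (p * x + y)) - 1‖ =
        (∏ x ∈ range (p ^ M), ‖ω ^ (a + (p * x + j₀)) - 1‖) *
          ∏ y ∈ (range p).erase j₀, ∏ x ∈ range (p ^ M), ‖ω ^ (a + (p * x + y)) - 1‖ :=
      (mul_prod_erase _ _ hj₀).symm
    rw [h1]
    have h2 : ∏ x ∈ range (p ^ M), ‖ω ^ (a + (p * x + j₀)) - 1‖ ≤ θ p (M + m) ^ ee p M := by
      have h3 := ih (ω ^ p) (by
        rw [← pow_mul, ← hω]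
        congr 1
        ring) a'
      refine le_of_eq_of_le (prod_congr rfl fun x _ => ?_) h3
      congr 2
      rw [← pow_mul]
      congr 1
      calc a + (p * x + j₀) = (a + j₀) + p * x := by ring
        _ = p * a' + p * x := by rw [ha']
        _ = _ := by ring
    have h4 : ∏ y ∈ (range p).erase j₀, ∏ x ∈ range (p ^ M), ‖ω ^ (a + (p * x + y)) - 1‖ ≤
        θ p (M + 1 + m) ^ ((p - 1) * p ^ M) := by
      calc ∏ y ∈ (range p).erase j₀, ∏ x ∈ range (p ^ M), ‖ω ^ (a + (p * x + y)) - 1‖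
          ≤ ∏ y ∈ (range p).erase j₀, ∏ x ∈ range (p ^ M), θ p (M + 1 + m) := by
            apply prod_le_prod
            · intro y _
              exact prod_nonneg fun _ _ => norm_nonneg _
            · intro y _
              apply prod_le_prod
              · intro _ _
                exact norm_nonneg _
              · intro x _
                exact hroot _
        _ = θ p (M + 1 + m) ^ ((p - 1) * p ^ M) := by
            simp only [prod_const, card_range, card_erase_of_mem hj₀]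
            rw [← pow_mul, mul_comm]
    calc _ ≤ θ p (M + m) ^ ee p M * θ p (M + 1 + m) ^ ((p - 1) * p ^ M) := by
          apply mul_le_mul h2 h4
          · exact prod_nonneg fun _ _ => prod_nonneg fun _ _ => norm_nonneg _
          · exact pow_nonneg (θ_pos p _).le _
      _ = θ p (M + 1 + m) ^ ee p (M + 1) := by
          have h5 : M + 1 + m = (M + m) + 1 := by ring
          rw [h5, ← θ_succ p (M + m), ← pow_mul, ← pow_add, ee]
          congr 1
          ring

/-- The key approximation. -/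
theorem approx (p : ℕ) [hp : Fact p.Prime] {C : Type*} [NormedField C] [NormedAlgebra ℚ_[p] C]
    [IsUltrametricDist C] (s m : ℕ) (ω : C)
    (hω : ω ^ (p ^ (s * p ^ (m + 1) + (m + 1))) = 1) (a : ℕ) :
    ∃ R : ℕ → C, ∀ t : ℕ, ‖ω ^ (a * t) - ∑ b ∈ range (p ^ (s * p ^ (m + 1))), R b * ω ^ (b * t)‖ ≤
      ((p : ℝ)⁻¹) ^ s := by
  set M := s * p ^ (m + 1) with hM
  have hp0 : p ≠ 0 := hp.out.ne_zero
  have hω' : ω ^ (p ^ (M + m + 1)) = 1 := hω
  have hn := norm_root (pow_ne_zero _ hp0) hω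
  set ν : C := ω ^ (p ^ (M + m + 1) - 1) with hν
  have hων : ν * ω = 1 := by
    rw [hν, ← pow_succ, Nat.sub_add_cancel (Nat.one_le_pow _ _ hp.out.pos), hω']
  have hνn : ‖ν‖ = 1 := by rw [hν, norm_pow, hn, one_pow]
  set r := p ^ M with hr
  let ω₁ : O C := ⟨ω, hn.le⟩
  let ν₁ : O C := ⟨ν, hνn.le⟩
  let P : Polynomial (O C) := ∏ i ∈ range r, (Polynomial.X - Polynomial.C (ν₁ ^ i))
  have hPm : P.Monic := Polynomial.monic_prod_of_monic _ _ fun i _ => Polynomial.monic_X_sub_C _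
  have hPd : P.natDegree = r := by
    rw [Polynomial.natDegree_prod_of_monic _ _ fun i _ => Polynomial.monic_X_sub_C _]
    simp only [Polynomial.natDegree_X_sub_C, sum_const, card_range, smul_eq_mul, mul_one]
  let A : Polynomial (O C) := Polynomial.X ^ a
  have hdec := Polynomial.modByMonic_add_div A P
  have hrpos : 0 < r := Nat.pos_of_ne_zero (pow_ne_zero _ hp0)
  have hdeg : (A %ₘ P).natDegree < r := by
    rw [← hPd]
    apply Polynomial.natDegree_modByMonic_lt A hPm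
    intro h1
    rw [h1] at hPd
    simp at hPd
    omega
  refine ⟨fun b => ((A %ₘ P).coeff b : C), fun t => ?_⟩
  have h1 := congrArg (fun q => ((Polynomial.eval (ω₁ ^ t) q : O C) : C)) hdec
  simp only [Polynomial.eval_add, Polynomial.eval_mul] at h1
  have h2 : ((Polynomial.eval (ω₁ ^ t) A : O C) : C) = ω ^ (a * t) := by
    simp only [A, Polynomial.eval_pow, Polynomial.eval_X]
    push_cast
    rw [← pow_mul, mul_comm]
  have h3 : ((Polynomial.eval (ω₁ ^ t) (A %ₘ P) : O C) : C) =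
      ∑ b ∈ range r, ((A %ₘ P).coeff b : C) * ω ^ (b * t) := by
    rw [Polynomial.eval_eq_sum_range' hdeg]
    push_cast
    refine sum_congr rfl fun b _ => ?_
    rw [← pow_mul, mul_comm b t]
  have h4 : ‖((Polynomial.eval (ω₁ ^ t) P : O C) : C)‖ ≤ ((p : ℝ)⁻¹) ^ s := by
    have h5 : ((Polynomial.eval (ω₁ ^ t) P : O C) : C) = ∏ i ∈ range r, (ω ^ t - ν ^ i) := by
      simp only [P, Polynomial.eval_prod, Polynomial.eval_sub, Polynomial.eval_X,
        Polynomial.eval_C]
      push_cast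
      rfl
    rw [h5, norm_prod]
    have h6 : ∀ i ∈ range r, ‖ω ^ t - ν ^ i‖ = ‖ω ^ (t + i) - 1‖ := by
      intro i _
      have h7 : ω ^ t - ν ^ i = ν ^ i * (ω ^ (t + i) - 1) := by
        have : ν ^ i * ω ^ i = 1 := by rw [← mul_pow, hων, one_pow]
        rw [pow_add]
        linear_combination (- ω ^ t) * this
      rw [h7, norm_mul, norm_pow, hνn, one_pow, one_mul]
    rw [prod_congr rfl h6]
    refine (prod_le p m M ω hω' t).trans (le_of_eq ?_)
    have h8 : ee p M = ((p - 1) * p ^ (M + m)) * s := by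
      have h9 := ee_eq p M
      have h10 : p * ee p M = p * (((p - 1) * p ^ (M + m)) * s) := by
        rw [h9]
        conv_lhs => rw [hM]
        rw [← hM]
        ring
      exact Nat.eq_of_mul_eq_mul_left hp.out.pos h10
    rw [h8, pow_mul, θ_pow]
  have h5 : ω ^ (a * t) - ∑ b ∈ range r, ((A %ₘ P).coeff b : C) * ω ^ (b * t) =
      ((Polynomial.eval (ω₁ ^ t) P : O C) : C) * ((Polynomial.eval (ω₁ ^ t) (A /ₘ P) : O C) : C) := by
    rw [← h2, ← h3, ← h1]
    push_cast
    ring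
  rw [h5, norm_mul]
  calc _ ≤ ((p : ℝ)⁻¹) ^ s * 1 := by
        apply mul_le_mul h4 (Polynomial.eval (ω₁ ^ t) (A /ₘ P)).2 (norm_nonneg _)
        have := p_pos p
        positivity
    _ = _ := mul_one _

end Pool.Agent.Q247.HN
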